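import Pool.Agent.MP_de21d3_co.H91.Defs

/-!
Winning positions, and guarding a geodesic.
-/

set_option linter.unusedSectionVars false

namespace Pool.Agent.MP_de21d3_co.H91

variable {V : Type} [Fintype V] [DecidableEq V] {G : SimpleGraph V} {k : ℕ}

/-- The cops, to move, win in at most `n` moves. -/
def WinN (G : SimpleGraph V) : ℕ → (Fin k → V) → V → Prop
  | 0, _, _ => False
  | n + 1, c, r => ∃ c' : Fin k → V, (∀ i, near G (c i) (c' i)) ∧
      ((∃ i, c' i = r) ∨ ∀ r', near G r r' → WinN G n c' r')

/-- The cops, to move, win. -/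
def Win (G : SimpleGraph V) (c : Fin k → V) (r : V) : Prop := ∃ n, WinN G n c r

/-- The cops win with the robber to move. -/
def RWin (G : SimpleGraph V) (c : Fin k → V) (r : V) : Prop :=
  (∃ i, c i = r) ∨ ∀ r', near G r r' → Win G c r'

theorem near_refl (a : V) : near G a a := Or.inl rfl

theorem near.symm {a b : V} (h : near G a b) : near G b a := h.imp Eq.symm SimpleGraph.Adj.symm

theorem WinN.succ {n : ℕ} {c : Fin k → V} {r : V} (h : WinN G n c r) : WinN G (n + 1) c r := by
  induction n generalizing c r with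
  | zero => exact h.elim
  | succ n ih =>
    obtain ⟨c', h1, h2⟩ := h
    exact ⟨c', h1, h2.imp id fun h r' hr => ih (h r' hr)⟩

theorem WinN.mono {n m : ℕ} (hnm : n ≤ m) {c : Fin k → V} {r : V} (h : WinN G n c r) :
    WinN G m c r := by
  induction hnm with
  | refl => exact h
  | step _ ih => exact ih.succ

theorem win_step {c c' : Fin k → V} {r : V} (h : ∀ i, near G (c i) (c' i)) (h' : RWin G c' r) :
    Win G c r := by
  rcases h' with h' | h'
  · exact ⟨1, c', h, Or.inl h'⟩
  · have : ∀ r', ∃ n, near G r r' → WinN G n c' r' := fun r' => by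
      by_cases hr : near G r r'
      · exact (h' r' hr).imp fun _ h _ => h
      · exact ⟨0, fun h => absurd h hr⟩
    choose n hn using this
    exact ⟨Finset.univ.sup n + 1, c', h, Or.inr fun r' hr =>
      (hn r' hr).mono (Finset.le_sup (Finset.mem_univ r'))⟩

theorem copsWin_of (c0 : Fin k → V) (h : ∀ r, Win G c0 r) : CopsWin G k := by
  classical
  have hn : ∀ (c : Fin k → V) (r : V), ∃ c' : Fin k → V, (∀ i, near G (c i) (c' i)) ∧
      ∀ n, WinN G (n + 1) c r → (∃ i, c' i = r) ∨ ∀ r', near G r r' → WinN G n c' r' := by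
    intro c r
    by_cases hw : Win G c r
    · obtain ⟨m, hm⟩ : ∃ m, Nat.find hw = m + 1 := by
        refine Nat.exists_eq_succ_of_ne_zero fun h0 => ?_
        have := Nat.find_spec hw
        rw [h0] at this
        exact this
      have h1 := Nat.find_spec hw
      rw [hm] at h1
      obtain ⟨c', h2, h3⟩ := h1
      refine ⟨c', h2, fun n hn => h3.imp id fun h r' hr => (h r' hr).mono ?_⟩
      have := Nat.find_min' hw hn
      omega
    · exact ⟨c, fun _ => near_refl _, fun n hn => absurd ⟨_, hn⟩ hw⟩
  choose nx h1 h2 using hn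
  let s : List V → Fin k → V := fun l => l.foldr (fun a c => nx c a) c0
  refine ⟨s, fun l a i => h1 _ a i, fun r hr => ?_⟩
  have key : ∀ n t, WinN G n (s (hist r t)) (r t) → ∃ n i, s (hist r (n + 1)) i = r n := by
    intro n
    induction n with
    | zero => exact fun _ h => h.elim
    | succ n ih =>
      intro t ht
      rcases h2 _ _ n ht with h | h
      · exact ⟨t, h⟩
      · exact ih (t + 1) (h _ (hr t))
  obtain ⟨n, hn⟩ := h (r 0)
  exact key n 0 hn

/-- The graph induced on `R`, on the same vertex type. -/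
def GR (G : SimpleGraph V) (R : Finset V) : SimpleGraph V where
  Adj a b := G.Adj a b ∧ a ∈ R ∧ b ∈ R
  symm := ⟨fun _ _ h => ⟨h.1.symm, h.2.2, h.2.1⟩⟩
  loopless := ⟨fun _ h => h.1.ne rfl⟩

/-- Shadow maps. -/
def Lip (G : SimpleGraph V) (R : Finset V) (h : V → V) : Prop :=
  ∀ a ∈ R, ∀ b ∈ R, G.Adj a b → near G (h a) (h b)

/-- The cops in `S` guard the set `R`. -/
structure Guard (G : SimpleGraph V) (R : Finset V) (S : Finset (Fin k)) (f : Fin k → V → V) :
    Prop where
  lip : ∀ i ∈ S, Lip G R (f i)
  out : ∀ a ∈ R, ∀ b, b ∉ R → G.Adj a b → ∃ i ∈ S, near G (f i a) b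

theorem Guard.move {R : Finset V} {S : Finset (Fin k)} {f : Fin k → V → V} (hS : Guard G R S f)
    {x : Fin k} (hx : x ∉ S) {c : Fin k → V} {r r' t : V} (hr : r ∈ R)
    (hc : ∀ i ∈ S, c i = f i r) (hr' : near G r r') (ht : near G (c x) t)
    (H : r' ∈ R → ∀ c' : Fin k → V, (∀ i ∈ S, c' i = f i r') → c' x = t → RWin G c' r') :
    Win G c r' := by
  by_cases h : r' ∈ R
  · refine win_step (c' := fun i => if i ∈ S then f i r' else if i = x then t else c i)
      (fun i => ?_) (H h _ (fun i hi => if_pos hi) (by simp [hx]))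
    by_cases hi : i ∈ S
    · rw [if_pos hi, hc i hi]
      rcases hr' with rfl | hr'
      · exact near_refl _
      · exact hS.lip i hi r hr r' h hr'
    · rw [if_neg hi]
      split_ifs with h1
      · rwa [h1]
      · exact near_refl _
  · have h1 : G.Adj r r' := hr'.resolve_left fun e => h (e ▸ hr)
    obtain ⟨i, hi, h2⟩ := hS.out r hr r' h h1
    refine win_step (c' := Function.update c i r') (fun j => ?_) (Or.inl ⟨i, by simp⟩)
    by_cases hj : j = i
    · rw [hj, Function.update_self, hc i hi]
      exact h2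
    · rw [Function.update_of_ne hj]
      exact near_refl _

theorem supp_GR {R : Finset V} {u v : V} (hu : u ∈ R) (p : (GR G R).Walk u v) :
    ∀ a ∈ p.support, a ∈ R := by
  induction p with
  | nil => simpa using hu
  | cons h p ih =>
    intro a ha
    rcases List.mem_cons.1 ha with rfl | ha
    · exact hu
    · exact ih h.2.2 a ha

theorem exists_guard (hG : G.Connected) {R : Finset V}
    (hR : ∀ a ∈ R, ∀ b ∈ R, (GR G R).Reachable a b) {u v : V} (hu : u ∈ R) (hv : v ∈ R) :
    ∃ (p : (GR G R).Walk u v) (h : V → V), p.IsPath ∧ Lip G R h ∧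
      (∀ a ∈ R, ∀ b ∈ p.support, G.Adj a b → near G (h a) b) ∧
      ∀ (S : Finset (Fin k)) (f : Fin k → V → V) (x : Fin k), x ∉ S → Guard G R S f →
        (∀ (c : Fin k → V), ∀ r ∈ R, r ∉ p.support → (∀ i ∈ S, c i = f i r) → c x = h r →
          RWin G c r) →
        ∀ (c : Fin k → V), ∀ r ∈ R, (∀ i ∈ S, c i = f i r) → RWin G c r := by
  obtain ⟨p, hp, hl⟩ := (hR u hu v hv).exists_path_of_dist
  set d : V → ℕ := fun a => min ((GR G R).dist u a) p.length with hd
  have hdist : ∀ j ≤ p.length, d (p.getVert j) = j := by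
    intro j hj
    have h1 := SimpleGraph.dist_le (p.take j)
    have h2 := SimpleGraph.dist_le (p.drop j)
    have h3 := (p.take j).reachable.dist_triangle_left v
    rw [SimpleGraph.Walk.take_length] at h1
    rw [SimpleGraph.Walk.drop_length] at h2
    simp only [hd]
    omega
  have hnear : ∀ i j, i ≤ p.length → j ≤ p.length → i ≤ j + 1 → j ≤ i + 1 →
      near G (p.getVert i) (p.getVert j) := by
    intro i j hi hj h1 h2
    rcases lt_trichotomy i j with h | h | h
    · obtain rfl : j = i + 1 := by omega
      exact Or.inr (p.adj_getVert_succ (by omega)).1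
    · rw [h]; exact near_refl _
    · obtain rfl : i = j + 1 := by omega
      exact Or.inr (p.adj_getVert_succ (by omega)).1.symm
  have hlip : ∀ a ∈ R, ∀ b ∈ R, G.Adj a b → d a ≤ d b + 1 := by
    intro a ha b hb hab
    have := SimpleGraph.Adj.diff_dist_adj (u := u) (show (GR G R).Adj a b from ⟨hab, ha, hb⟩)
    simp only [hd]
    omega
  have hle : ∀ a, d a ≤ p.length := fun a => min_le_right _ _
  have hL : Lip G R fun a => p.getVert (d a) := fun a ha b hb hab =>
    hnear _ _ (hle a) (hle b) (hlip a ha b hb hab) (hlip b hb a ha hab.symm)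
  have hfix : ∀ b ∈ p.support, p.getVert (d b) = b := by
    intro b hb
    obtain ⟨j, rfl, hj⟩ := SimpleGraph.Walk.mem_support_iff_exists_getVert.1 hb
    rw [hdist j hj]
  refine ⟨p, fun a => p.getVert (d a), hp, hL, fun a ha b hb hab => ?_, ?_⟩
  · have := hL a ha b (supp_GR hu p b hb) hab
    simp only [hfix b hb] at this
    exact this
  intro S f x hx hS H
  have h2 : ∀ m j, j + m = p.length → ∀ (c : Fin k → V), ∀ r ∈ R, (∀ i ∈ S, c i = f i r) →
      c x = p.getVert j → j ≤ d r → RWin G c r := by
    intro m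
    induction m using Nat.strong_induction_on with
    | _ m ih =>
      intro j hj c r hr hc hcx hjr
      refine Or.inr fun r' hr' => ?_
      by_cases hR' : r' ∈ R
      · have h3 : d r ≤ d r' + 1 := by
          rcases hr' with rfl | hr'
          · omega
          · exact hlip r hr r' hR' hr'
        by_cases h4 : d r' ≤ j + 1
        · refine hS.move hx hr hc hr' (t := p.getVert (d r'))
            (hcx ▸ hnear _ _ (by omega) (hle _) (by omega) h4) fun _ c' hc' hx' => ?_
          by_cases h5 : r' ∈ p.support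
          · exact Or.inl ⟨x, hx'.trans (hfix r' h5)⟩
          · exact H c' r' hR' h5 hc' hx'
        · have := hle r'
          exact hS.move hx hr hc hr' (t := p.getVert (j + 1))
            (hcx ▸ hnear _ _ (by omega) (by omega) (by omega) le_rfl) fun _ c' hc' hx' =>
              ih (m - 1) (by omega) (j + 1) (by omega) c' r' hR' hc' hx' (by omega)
      · exact hS.move hx hr hc hr' (near_refl _) fun h => absurd h hR'
  have h1 : ∀ w w' (q : G.Walk w w'), w' = u → ∀ (c : Fin k → V), ∀ r ∈ R,
      (∀ i ∈ S, c i = f i r) → c x = w → RWin G c r := by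
    intro w w' q
    induction q with
    | nil =>
      intro h c r hr hc hcx
      exact h2 p.length 0 (by simp) c r hr hc (by simp [hcx, h]) (Nat.zero_le _)
    | cons h q ih =>
      intro h' c r hr hc hcx
      exact Or.inr fun r' hr' => hS.move hx hr hc hr' (Or.inr (hcx ▸ h)) fun hR' c' hc' hx' =>
        ih h' c' r' hR' hc' hx'
  intro c r hr hc
  obtain ⟨q⟩ := hG.preconnected (c x) u
  exact h1 _ _ q rfl c r hr hc rfl

end Pool.Agent.MP_de21d3_co.H91
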