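import Mathlib

/-!
Embedding schemes of graphs, their faces, and the game of cops and robber.
-/

namespace Pool.Agent.MP_de21d3_co.H91

variable {V : Type}

/-- An embedding scheme: a cyclic order of the neighbours at each vertex, and a signature that
marks the twisted edges. -/
structure Scheme (G : SimpleGraph V) where
  rot : V → List V
  nodup : ∀ v, (rot v).Nodup
  mem : ∀ v w, w ∈ rot v ↔ G.Adj v w
  sig : Sym2 V → Bool

/-- The flag `(u, v, b)` is a side of the edge `uv` near its end `u`: the side of the next edge
in the rotation at `u` if `b` is true, of the previous edge if `b` is false. -/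
def Flag (G : SimpleGraph V) : Type := {p : V × V × Bool // G.Adj p.1 p.2.1}

/-- Consecutive flags on a face boundary: the two ends of one side of an edge, or the two flags
of a corner at a vertex. -/
def Scheme.Rel [DecidableEq V] {G : SimpleGraph V} (σ : Scheme G) (p q : Flag G) : Prop :=
  q.1 = (p.1.2.1, p.1.1, if σ.sig s(p.1.1, p.1.2.1) then p.1.2.2 else !p.1.2.2) ∨
    (p.1.2.2 = true ∧ q.1 = (p.1.1, (σ.rot p.1.1).formPerm p.1.2.1, false))

/-- The number of faces. -/
noncomputable def Scheme.faces [DecidableEq V] {G : SimpleGraph V} (σ : Scheme G) : ℕ :=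
  Nat.card (Quot σ.Rel)

/-- A legal move: stay, or go to an adjacent vertex. -/
def near (G : SimpleGraph V) (a b : V) : Prop := a = b ∨ G.Adj a b

/-- The first `n` positions of the robber, the latest first. -/
def hist (r : ℕ → V) : ℕ → List V
  | 0 => []
  | n + 1 => r n :: hist r n

/-- `k` cops have a winning strategy: `s h` is their position after the robber has played `h`. -/
def CopsWin (G : SimpleGraph V) (k : ℕ) : Prop :=
  ∃ s : List V → Fin k → V, (∀ h a i, near G (s h i) (s (a :: h) i)) ∧
    ∀ r : ℕ → V, (∀ n, near G (r n) (r (n + 1))) → ∃ n i, s (hist r (n + 1)) i = r n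

end Pool.Agent.MP_de21d3_co.H91
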