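import Mathlib

/-!
The mod two intersection form of an abstract ribbon graph, given by lists of edges.
-/

set_option linter.unusedSectionVars false

namespace Pool.Agent.MP_de21d3_co.H91

variable {ε : Type}

/-- Edge functions. -/
abbrev Ch (ε : Type) := ε → ZMod 2

/-- The sum of `x` along a list. -/
def sm (l : List ε) (x : Ch ε) : ZMod 2 := (l.map x).sum

/-- The diagonal sum along a list. -/
def dg (l : List ε) (x y : Ch ε) : ZMod 2 := (l.map fun p => x p * y p).sum

/-- The local form of a list. -/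
def lf : List ε → Ch ε → Ch ε → ZMod 2
  | [], _, _ => 0
  | a :: l, x, y => x a * sm l y + lf l x y

theorem two : (2 : ZMod 2) = 0 := rfl

theorem z2 (a : ZMod 2) : a = 0 ∨ a = 1 := by revert a; decide

theorem sq2 (a : ZMod 2) : a * a = a := by revert a; decide

@[simp] theorem sm_nil (x : Ch ε) : sm [] x = 0 := rfl
@[simp] theorem sm_cons (a : ε) (l : List ε) (x : Ch ε) : sm (a :: l) x = x a + sm l x := by
  simp [sm]
@[simp] theorem sm_append (l m : List ε) (x : Ch ε) : sm (l ++ m) x = sm l x + sm m x := by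
  simp [sm]
@[simp] theorem sm_reverse (l : List ε) (x : Ch ε) : sm l.reverse x = sm l x := by
  simp [sm]
@[simp] theorem dg_nil (x y : Ch ε) : dg [] x y = 0 := rfl
@[simp] theorem dg_cons (a : ε) (l : List ε) (x y : Ch ε) :
    dg (a :: l) x y = x a * y a + dg l x y := by simp [dg]
@[simp] theorem lf_nil (x y : Ch ε) : lf [] x y = 0 := rfl
@[simp] theorem lf_cons (a : ε) (l : List ε) (x y : Ch ε) :
    lf (a :: l) x y = x a * sm l y + lf l x y := rfl

theorem lf_append (l m : List ε) (x y : Ch ε) :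
    lf (l ++ m) x y = lf l x y + lf m x y + sm l x * sm m y := by
  induction l with
  | nil => simp
  | cons a l ih => simp only [List.cons_append, lf_cons, sm_append, ih, sm_cons]; ring

theorem lf_swap (l : List ε) (x y : Ch ε) :
    lf l x y + lf l y x = sm l x * sm l y + dg l x y := by
  induction l with
  | nil => simp
  | cons a l ih =>
    simp only [lf_cons, sm_cons, dg_cons]
    linear_combination ih - (x a * y a) * two

theorem lf_reverse (l : List ε) (x y : Ch ε) : lf l.reverse x y = lf l y x := by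
  induction l with
  | nil => simp
  | cons a l ih => simp [lf_append, ih]; ring

theorem sm_congr {l : List ε} {x x' : Ch ε} (h : ∀ a ∈ l, x a = x' a) : sm l x = sm l x' := by
  unfold sm
  rw [List.map_congr_left h]

theorem lf_congr {l : List ε} {x x' y y' : Ch ε} (h : ∀ a ∈ l, x a = x' a)
    (h' : ∀ a ∈ l, y a = y' a) : lf l x y = lf l x' y' := by
  induction l with
  | nil => simp
  | cons a l ih =>
    rw [lf_cons, lf_cons, h a (by simp), sm_congr fun b hb => h' b (by simp [hb]),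
      ih (fun b hb => h b (by simp [hb])) fun b hb => h' b (by simp [hb])]

theorem sm_zero {l : List ε} {x : Ch ε} (h : ∀ a ∈ l, x a = 0) : sm l x = 0 := by
  induction l with
  | nil => simp
  | cons a l ih => rw [sm_cons, h a (by simp), ih fun b hb => h b (by simp [hb]), add_zero]

theorem lf_zero_left {l : List ε} {x : Ch ε} (y : Ch ε) (h : ∀ a ∈ l, x a = 0) :
    lf l x y = 0 := by
  induction l with
  | nil => simp
  | cons a l ih => rw [lf_cons, h a (by simp), ih fun b hb => h b (by simp [hb])]; simp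

theorem lf_zero_right {l : List ε} (x : Ch ε) {y : Ch ε} (h : ∀ a ∈ l, y a = 0) :
    lf l x y = 0 := by
  induction l with
  | nil => simp
  | cons a l ih =>
    rw [lf_cons, sm_zero fun b hb => h b (by simp [hb]), ih fun b hb => h b (by simp [hb])]
    simp

theorem sm_filter (l : List ε) (p : ε → Bool) {x : Ch ε} (h : ∀ a, p a = false → x a = 0) :
    sm (l.filter p) x = sm l x := by
  induction l with
  | nil => simp
  | cons a l ih =>
    cases hp : p a
    · rw [List.filter_cons_of_neg (by simp [hp]), ih, sm_cons, h a hp, zero_add]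
    · rw [List.filter_cons_of_pos hp, sm_cons, sm_cons, ih]

theorem lf_filter (l : List ε) (p : ε → Bool) {x y : Ch ε} (h : ∀ a, p a = false → x a = 0)
    (h' : ∀ a, p a = false → y a = 0) : lf (l.filter p) x y = lf l x y := by
  induction l with
  | nil => simp
  | cons a l ih =>
    cases hp : p a
    · rw [List.filter_cons_of_neg (by simp [hp]), ih, lf_cons, h a hp, zero_mul, zero_add]
    · rw [List.filter_cons_of_pos hp, lf_cons, lf_cons, ih, sm_filter l p h']

theorem sm_add (l : List ε) (x x' : Ch ε) : sm l (x + x') = sm l x + sm l x' := by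
  induction l with
  | nil => simp
  | cons a l ih => simp only [sm_cons, ih, Pi.add_apply]; ring

theorem sm_smul (l : List ε) (c : ZMod 2) (x : Ch ε) : sm l (c • x) = c * sm l x := by
  induction l with
  | nil => simp
  | cons a l ih => simp only [sm_cons, ih, Pi.smul_apply, smul_eq_mul]; ring

theorem lf_add (l : List ε) (x x' y : Ch ε) : lf l (x + x') y = lf l x y + lf l x' y := by
  induction l with
  | nil => simp
  | cons a l ih => simp only [lf_cons, ih, Pi.add_apply]; ring

theorem lf_smul (l : List ε) (c : ZMod 2) (x y : Ch ε) : lf l (c • x) y = c * lf l x y := by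
  induction l with
  | nil => simp
  | cons a l ih => simp only [lf_cons, ih, Pi.smul_apply, smul_eq_mul]; ring

variable [Fintype ε] [DecidableEq ε]

/-- The diagonal part of the form. -/
def mu (μ x y : Ch ε) : ZMod 2 := ∑ e, μ e * x e * y e

/-- The cycle space. -/
def U (M : Multiset (List ε)) (D : Set ε) : Set (Ch ε) :=
  {x | (∀ e, e ∉ D → x e = 0) ∧ ∀ l ∈ M, sm l x = 0}

/-- The intersection form. -/
def B (M : Multiset (List ε)) (μ x y : Ch ε) : ZMod 2 :=
  (M.map fun l => lf l x y).sum + mu μ x y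

/-- Triangular systems. -/
def Tri (M : Multiset (List ε)) (D : Set ε) (μ : Ch ε) (T : List (Ch ε × Ch ε)) : Prop :=
  (∀ p ∈ T, p.1 ∈ U M D ∧ p.2 ∈ U M D ∧ B M μ p.1 p.2 = 1) ∧
    T.Pairwise fun p q => B M μ p.1 q.2 = 0

/-- The form has rank at most `r`. -/
def Rk (M : Multiset (List ε)) (D : Set ε) (μ : Ch ε) (r : ℕ) : Prop :=
  ∀ T, Tri M D μ T → T.length ≤ r

theorem B_cons (l : List ε) (M : Multiset (List ε)) (μ x y : Ch ε) :
    B (l ::ₘ M) μ x y = lf l x y + B M μ x y := by
  simp [B, add_assoc]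

theorem mu_count (μ x y : Ch ε) (C : List ε) :
    mu (fun p => μ p + (C.count p : ZMod 2)) x y = mu μ x y + dg C x y := by
  induction C with
  | nil => simp [mu]
  | cons a C ih =>
    rw [dg_cons]
    have : mu (fun p => μ p + ((a :: C).count p : ZMod 2)) x y =
        mu (fun p => μ p + (C.count p : ZMod 2)) x y + x a * y a := by
      unfold mu
      rw [← Finset.add_sum_erase _ _ (Finset.mem_univ a),
        ← Finset.add_sum_erase Finset.univ _ (Finset.mem_univ a)]
      rw [Finset.sum_congr rfl (g := fun e => (μ e + (C.count e : ZMod 2)) * x e * y e)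
        fun e he => by simp only [List.count_cons_of_ne (Finset.ne_of_mem_erase he).symm]]
      simp only [List.count_cons_self, Nat.cast_add, Nat.cast_one]
      ring
    rw [this, ih]
    ring

theorem B_update {M : Multiset (List ε)} {e : ε} (hM : ∀ l ∈ M, e ∉ l) (μ : Ch ε) {x y : Ch ε}
    (hx : x e = 0) (s t : ZMod 2) :
    B M μ (Function.update x e s) (Function.update y e t) = B M μ x y + μ e * s * t := by
  unfold B mu
  have h1 : (M.map fun l => lf l (Function.update x e s) (Function.update y e t)) =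
      M.map fun l => lf l x y :=
    Multiset.map_congr rfl fun l hl => lf_congr
      (fun a ha => Function.update_of_ne (ne_of_mem_of_not_mem ha (hM l hl)) _ _)
      fun a ha => Function.update_of_ne (ne_of_mem_of_not_mem ha (hM l hl)) _ _
  rw [h1, ← Finset.add_sum_erase _ _ (Finset.mem_univ e),
    ← Finset.add_sum_erase Finset.univ (fun e => μ e * x e * y e) (Finset.mem_univ e),
    Finset.sum_congr rfl (g := fun e => μ e * x e * y e) fun a ha => by
      rw [Function.update_of_ne (Finset.ne_of_mem_erase ha),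
        Function.update_of_ne (Finset.ne_of_mem_erase ha)]]
  simp only [Function.update_self, hx]
  ring

theorem B_zero_left (M : Multiset (List ε)) (μ y : Ch ε) : B M μ 0 y = 0 := by
  unfold B mu
  have : ∀ l : List ε, lf l 0 y = 0 := fun l => lf_zero_left y fun _ _ => rfl
  simp [this]

theorem B_zero_right (M : Multiset (List ε)) (μ x : Ch ε) : B M μ x 0 = 0 := by
  unfold B mu
  have : ∀ l : List ε, lf l x 0 = 0 := fun l => lf_zero_right x fun _ _ => rfl
  simp [this]

theorem sm_update {l : List ε} {e : ε} (h : e ∉ l) (x : Ch ε) (s : ZMod 2) :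
    sm l (Function.update x e s) = sm l x :=
  sm_congr fun _ ha => Function.update_of_ne (ne_of_mem_of_not_mem ha h) _ _

theorem lf_update {l : List ε} {e : ε} (h : e ∉ l) (x y : Ch ε) (s t : ZMod 2) :
    lf l (Function.update x e s) (Function.update y e t) = lf l x y :=
  lf_congr (fun _ ha => Function.update_of_ne (ne_of_mem_of_not_mem ha h) _ _)
    fun _ ha => Function.update_of_ne (ne_of_mem_of_not_mem ha h) _ _

variable {M M' : Multiset (List ε)} {D D' : Set ε} {μ μ' : Ch ε} {r : ℕ}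

theorem Tri.lift (L : Ch ε → Ch ε) (hU : ∀ x ∈ U M' D', L x ∈ U M D)
    (hB : ∀ x ∈ U M' D', ∀ y ∈ U M' D', B M μ (L x) (L y) = B M' μ' x y)
    {T : List (Ch ε × Ch ε)} (h : Tri M' D' μ' T) :
    Tri M D μ (T.map fun p => (L p.1, L p.2)) := by
  refine ⟨fun p hp => ?_, ?_⟩
  · obtain ⟨q, hq, rfl⟩ := List.mem_map.1 hp
    obtain ⟨h1, h2, h3⟩ := h.1 q hq
    exact ⟨hU _ h1, hU _ h2, by rw [hB _ h1 _ h2, h3]⟩
  · rw [List.pairwise_map]
    refine h.2.imp_of_mem fun {p q} hp hq hpq => ?_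
    rw [hB _ (h.1 p hp).1 _ (h.1 q hq).2.1, hpq]

theorem Rk.lift (h : Rk M D μ r) (L : Ch ε → Ch ε) (hU : ∀ x ∈ U M' D', L x ∈ U M D)
    (hB : ∀ x ∈ U M' D', ∀ y ∈ U M' D', B M μ (L x) (L y) = B M' μ' x y) : Rk M' D' μ' r :=
  fun T hT => by simpa using h _ (hT.lift L hU hB)

theorem Rk.lift1 (h : Rk M D μ r) (L : Ch ε → Ch ε) (hU : ∀ x ∈ U M' D', L x ∈ U M D)
    (hB : ∀ x ∈ U M' D', ∀ y ∈ U M' D', B M μ (L x) (L y) = B M' μ' x y) {c : Ch ε}
    (hc : c ∈ U M D) (hcc : B M μ c c = 1) (hcx : ∀ x ∈ U M' D', B M μ c (L x) = 0) :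
    ∃ r', r = r' + 1 ∧ Rk M' D' μ' r' := by
  have key : ∀ T, Tri M' D' μ' T → T.length + 1 ≤ r := by
    intro T hT
    have h1 := hT.lift L hU hB
    have h2 : Tri M D μ ((c, c) :: T.map fun p => (L p.1, L p.2)) := by
      refine ⟨fun p hp => ?_, List.pairwise_cons.2 ⟨fun p hp => ?_, h1.2⟩⟩
      · rcases List.mem_cons.1 hp with rfl | hp
        · exact ⟨hc, hc, hcc⟩
        · exact h1.1 p hp
      · obtain ⟨q, hq, rfl⟩ := List.mem_map.1 hp
        exact hcx _ (hT.1 q hq).2.1
    simpa using h _ h2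
  have h0 := key [] ⟨by simp, List.Pairwise.nil⟩
  exact ⟨r - 1, by simp at h0; omega, fun T hT => by have := key T hT; omega⟩

theorem Rk.lift2 (h : Rk M D μ r) (L : Ch ε → Ch ε) (hU : ∀ x ∈ U M' D', L x ∈ U M D)
    (hB : ∀ x ∈ U M' D', ∀ y ∈ U M' D', B M μ (L x) (L y) = B M' μ' x y) {c z : Ch ε}
    (hc : c ∈ U M D) (hz : z ∈ U M D) (hcc : B M μ c c = 0) (hcz : B M μ c z = 1)
    (hzc : B M μ z c = 1) (hcx : ∀ x ∈ U M' D', B M μ c (L x) = 0)
    (hxc : ∀ x ∈ U M' D', B M μ (L x) c = 0) : ∃ r', r = r' + 2 ∧ Rk M' D' μ' r' := by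
  have key : ∀ T, Tri M' D' μ' T → T.length + 2 ≤ r := by
    intro T hT
    have h1 := hT.lift L hU hB
    have h2 : Tri M D μ ((c, z) :: ((T.map fun p => (L p.1, L p.2)) ++ [(z, c)])) := by
      refine ⟨fun p hp => ?_, List.pairwise_cons.2 ⟨fun p hp => ?_, ?_⟩⟩
      · rcases List.mem_cons.1 hp with rfl | hp
        · exact ⟨hc, hz, hcz⟩
        · rcases List.mem_append.1 hp with hp | hp
          · exact h1.1 p hp
          · rw [List.mem_singleton.1 hp]
            exact ⟨hz, hc, hzc⟩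
      · rcases List.mem_append.1 hp with hp | hp
        · obtain ⟨q, hq, rfl⟩ := List.mem_map.1 hp
          exact hcx _ (hT.1 q hq).2.1
        · rw [List.mem_singleton.1 hp]
          exact hcc
      · refine List.pairwise_append.2 ⟨h1.2, List.pairwise_singleton _ _, fun p hp q hq => ?_⟩
        obtain ⟨q', hq', rfl⟩ := List.mem_map.1 hp
        rw [List.mem_singleton.1 hq]
        exact hxc _ (hT.1 q' hq').1
    have h3 := h _ h2
    simp only [List.length_cons, List.length_append, List.length_map, List.length_nil] at h3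
    omega
  have h0 := key [] ⟨by simp, List.Pairwise.nil⟩
  exact ⟨r - 2, by simp at h0; omega, fun T hT => by have := key T hT; omega⟩

theorem mem_U_cons {l : List ε} {x : Ch ε} : x ∈ U (l ::ₘ M) D ↔ sm l x = 0 ∧ x ∈ U M D := by
  simp only [U, Set.mem_ofPred_eq, Multiset.mem_cons, forall_eq_or_imp]
  tauto

theorem update_mem_U {e : ε} (he : e ∈ D) (hM : ∀ l ∈ M, e ∉ l) {x : Ch ε}
    (hx : x ∈ U M (D \ {e})) (s : ZMod 2) : Function.update x e s ∈ U M D := by
  refine ⟨fun a ha => ?_, fun l hl => by rw [sm_update (hM l hl), hx.2 l hl]⟩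
  have : a ≠ e := fun h => ha (h ▸ he)
  rw [Function.update_of_ne this]
  exact hx.1 a fun h => ha h.1

theorem Rk.rot {A C : List ε} (h : Rk ((A ++ C) ::ₘ M) D μ r) : Rk ((C ++ A) ::ₘ M) D μ r := by
  refine h.lift id (fun x hx => ?_) fun x hx y hy => ?_
  · rw [id, mem_U_cons] at *
    exact ⟨by rw [← hx.1, sm_append, sm_append, add_comm], hx.2⟩
  · have h1 := (mem_U_cons.1 hx).1
    have h2 := (mem_U_cons.1 hy).1
    rw [sm_append] at h1 h2
    simp only [id, B_cons, lf_append]
    linear_combination (sm C y) * h1 - (sm C x) * h2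

theorem Rk.contract {A C : List ε} {e : ε} (h : Rk ((A ++ [e]) ::ₘ (e :: C) ::ₘ M) D μ r)
    (hA : e ∉ A) (hC : e ∉ C) (hM : ∀ l ∈ M, e ∉ l) (he : e ∈ D) :
    ∃ (C' : List ε) (μ' : Ch ε), C'.Perm C ∧ (∀ a, a ∉ C → μ' a = μ a) ∧
      Rk ((A ++ C') ::ₘ M) (D \ {e}) μ' r := by
  have hU : ∀ C' : List ε, (∀ x, sm C' x = sm C x) → ∀ x ∈ U ((A ++ C') ::ₘ M) (D \ {e}),
      sm C x = sm A x ∧
        Function.update x e (sm A x) ∈ U ((A ++ [e]) ::ₘ (e :: C) ::ₘ M) D := by
    intro C' hC' x hx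
    obtain ⟨h1, h2⟩ := mem_U_cons.1 hx
    rw [sm_append, hC'] at h1
    have h3 : sm C x = sm A x := by linear_combination h1 - (sm A x) * two
    refine ⟨h3, mem_U_cons.2 ⟨?_, mem_U_cons.2 ⟨?_, update_mem_U he hM h2 _⟩⟩⟩
    · simp only [sm_append, sm_cons, sm_update hA, Function.update_self, sm_nil]
      linear_combination (sm A x) * two
    · simp only [sm_cons, sm_update hC, Function.update_self]
      exact h1
  have hB : ∀ x y : Ch ε, x e = 0 → sm C x = sm A x → sm C y = sm A y →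
      B ((A ++ [e]) ::ₘ (e :: C) ::ₘ M) μ (Function.update x e (sm A x))
        (Function.update y e (sm A y)) =
      lf A x y + lf C x y + B M μ x y + μ e * sm A x * sm A y := by
    intro x y hx h1 h2
    simp only [B_cons, lf_append, lf_cons, lf_nil, sm_nil, sm_cons, lf_update hA, lf_update hC,
      sm_update hA, sm_update hC, Function.update_self, B_update hM μ hx, h2]
    linear_combination (sm A x * sm A y) * two
  rcases z2 (μ e) with h0 | h0
  · refine ⟨C.reverse, fun p => μ p + (C.count p : ZMod 2), C.reverse_perm, fun a ha => ?_, ?_⟩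
    · simp [List.count_eq_zero_of_not_mem ha]
    · refine h.lift (fun x => Function.update x e (sm A x))
        (fun x hx => (hU _ (sm_reverse C) x hx).2) fun x hx y hy => ?_
      have h1 := (hU _ (sm_reverse C) x hx).1
      have h2 := (hU _ (sm_reverse C) y hy).1
      rw [hB x y (hx.1 e (by simp)) h1 h2, B_cons, lf_append, lf_reverse, sm_reverse, h0]
      have h3 := lf_swap C x y
      unfold B
      rw [mu_count]
      rw [h1, h2] at h3
      rw [h2]
      linear_combination h3 - (lf C y x) * two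
  · refine ⟨C, μ, List.Perm.refl _, fun _ _ => rfl, ?_⟩
    refine h.lift (fun x => Function.update x e (sm A x))
      (fun x hx => (hU _ (fun _ => rfl) x hx).2) fun x hx y hy => ?_
    have h1 := (hU _ (fun _ => rfl) x hx).1
    have h2 := (hU _ (fun _ => rfl) y hy).1
    rw [hB x y (hx.1 e (by simp)) h1 h2, B_cons, lf_append, h0, h2]
    ring

theorem B_loop {S S' : List ε} {e : ε} (hS : e ∉ S) (hS' : e ∉ S') (hM : ∀ l ∈ M, e ∉ l)
    (μ : Ch ε) {x : Ch ε} (y : Ch ε) (hx : x e = 0) (s t : ZMod 2) :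
    B ((e :: S ++ e :: S') ::ₘ M) μ (Function.update x e s) (Function.update y e t) =
      lf S x y + lf S' x y + sm S x * sm S' y + B M μ x y + s * sm S y + t * sm S x +
        (1 + μ e) * s * t := by
  simp only [B_cons, List.cons_append, lf_append, lf_cons, sm_cons, sm_append, lf_update hS,
    lf_update hS', sm_update hS, sm_update hS', Function.update_self, B_update hM μ hx]
  linear_combination (s * sm S' y) * two

theorem loop_mem {S S' : List ε} {e : ε} (hS : e ∉ S) (hS' : e ∉ S') (hM : ∀ l ∈ M, e ∉ l)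
    (he : e ∈ D) {x : Ch ε} (h1 : sm S x + sm S' x = 0) (h2 : x ∈ U M (D \ {e})) (s : ZMod 2) :
    Function.update x e s ∈ U ((e :: S ++ e :: S') ::ₘ M) D := by
  refine mem_U_cons.2 ⟨?_, update_mem_U he hM h2 _⟩
  simp only [List.cons_append, sm_cons, sm_append, sm_update hS, sm_update hS',
    Function.update_self]
  linear_combination h1 + s * two

theorem zero_mem_U : (0 : Ch ε) ∈ U M D := ⟨fun _ _ => rfl, fun _ _ => sm_zero fun _ _ => rfl⟩

theorem Rk.cut1 {S S' : List ε} {e : ε} (h : Rk ((e :: S ++ e :: S') ::ₘ M) D μ r)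
    (hS : e ∉ S) (hS' : e ∉ S') (hM : ∀ l ∈ M, e ∉ l) (he : e ∈ D) (h0 : μ e = 0) :
    ∃ (μ' : Ch ε) (r' : ℕ), r = r' + 1 ∧ Rk ((S.reverse ++ S') ::ₘ M) (D \ {e}) μ' r' := by
  have hz : ∀ l : List ε, sm l (0 : Ch ε) = 0 := fun _ => sm_zero fun _ _ => rfl
  have hl : ∀ (l : List ε) y, lf l (0 : Ch ε) y = 0 := fun _ y => lf_zero_left y fun _ _ => rfl
  refine ⟨fun p => μ p + (S.count p : ZMod 2), ?_⟩
  refine h.lift1 (fun x => Function.update x e (sm S x)) (fun x hx => ?_) (fun x hx y hy => ?_)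
    (c := Function.update 0 e 1) (loop_mem hS hS' hM he (by simp [hz]) zero_mem_U _) ?_
    fun x hx => ?_
  · obtain ⟨h1, h2⟩ := mem_U_cons.1 hx
    exact loop_mem hS hS' hM he (by simpa using h1) h2 _
  · rw [B_loop hS hS' hM μ y (hx.1 e (by simp)), B_cons, lf_append, lf_reverse, sm_reverse, h0]
    have h3 := lf_swap S x y
    unfold B
    rw [mu_count]
    linear_combination h3 + (2 * sm S x * sm S y - lf S y x) * two
  · rw [B_loop hS hS' hM μ 0 rfl, h0]
    simp [hz, hl, B_zero_left]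
  · rw [B_loop hS hS' hM μ x rfl, h0]
    simp only [hz, hl, B_zero_left]
    linear_combination (sm S x) * two

theorem cut_aux {S S' : List ε} {e : ε} (hS : e ∉ S) (hS' : e ∉ S') (hM : ∀ l ∈ M, e ∉ l)
    (he : e ∈ D) (μ : Ch ε) :
    (∀ x ∈ U (S ::ₘ S' ::ₘ M) (D \ {e}),
      Function.update x e 0 ∈ U ((e :: S ++ e :: S') ::ₘ M) D) ∧
    ∀ x ∈ U (S ::ₘ S' ::ₘ M) (D \ {e}), ∀ y ∈ U (S ::ₘ S' ::ₘ M) (D \ {e}),
      B ((e :: S ++ e :: S') ::ₘ M) μ (Function.update x e 0) (Function.update y e 0) =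
        B (S ::ₘ S' ::ₘ M) μ x y := by
  refine ⟨fun x hx => ?_, fun x hx y _ => ?_⟩
  · obtain ⟨h1, h2⟩ := mem_U_cons.1 hx
    obtain ⟨h2, h3⟩ := mem_U_cons.1 h2
    exact loop_mem hS hS' hM he (by rw [h1, h2, add_zero]) h3 _
  · rw [B_loop hS hS' hM μ y (hx.1 e (by simp)), B_cons, B_cons, (mem_U_cons.1 hx).1]
    ring

theorem Rk.cut0 {S S' : List ε} {e : ε} (h : Rk ((e :: S ++ e :: S') ::ₘ M) D μ r)
    (hS : e ∉ S) (hS' : e ∉ S') (hM : ∀ l ∈ M, e ∉ l) (he : e ∈ D) :
    Rk (S ::ₘ S' ::ₘ M) (D \ {e}) μ r :=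
  h.lift _ (cut_aux hS hS' hM he μ).1 (cut_aux hS hS' hM he μ).2

theorem sm_single (l : List ε) (f : ε) :
    sm l (Function.update (0 : Ch ε) f 1) = (l.count f : ZMod 2) := by
  induction l with
  | nil => simp
  | cons a l ih =>
    rw [sm_cons, ih]
    by_cases h : a = f
    · subst h
      simp [add_comm]
    · rw [Function.update_of_ne h, List.count_cons_of_ne h]
      simp

theorem Rk.cut2 {S S' : List ε} {e f : ε} (h : Rk ((e :: S ++ e :: S') ::ₘ M) D μ r)
    (hS : e ∉ S) (hS' : e ∉ S') (hM : ∀ l ∈ M, e ∉ l) (he : e ∈ D) (h0 : μ e = 1)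
    (hf : S.count f = 1) (hf' : S'.count f = 1) (hfM : ∀ l ∈ M, f ∉ l) (hfD : f ∈ D) :
    ∃ r' : ℕ, r = r' + 2 ∧ Rk (S ::ₘ S' ::ₘ M) (D \ {e}) μ r' := by
  have hz : ∀ l : List ε, sm l (0 : Ch ε) = 0 := fun _ => sm_zero fun _ _ => rfl
  have hl : ∀ (l : List ε) y, lf l (0 : Ch ε) y = 0 := fun _ y => lf_zero_left y fun _ _ => rfl
  have hr : ∀ (l : List ε) y, lf l y (0 : Ch ε) = 0 := fun _ y => lf_zero_right y fun _ _ => rfl
  have hef : e ≠ f := fun h => hS (h ▸ List.count_pos_iff.1 (by omega))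
  have hzU : Function.update (0 : Ch ε) f 1 ∈ U M (D \ {e}) :=
    update_mem_U (D := D \ {e}) ⟨hfD, hef.symm⟩ hfM zero_mem_U _
  refine h.lift2 _ (cut_aux hS hS' hM he μ).1 (cut_aux hS hS' hM he μ).2
    (c := Function.update 0 e 1) (z := Function.update (Function.update 0 f 1) e 0)
    (loop_mem hS hS' hM he (by simp [hz]) zero_mem_U _)
    (loop_mem hS hS' hM he (by rw [sm_single, sm_single, hf, hf']; rfl) hzU _) ?_ ?_ ?_
    (fun x hx => ?_) fun x hx => ?_
  · rw [B_loop hS hS' hM μ 0 rfl, h0]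
    simp only [hz, hl, B_zero_left]
    rfl
  · rw [B_loop hS hS' hM μ _ rfl, sm_single S, hf]
    simp [hz, hl, B_zero_left]
  · rw [B_loop hS hS' hM μ _ (Function.update_of_ne hef _ _), sm_single S, hf]
    simp [hz, hr, B_zero_right]
  · rw [B_loop hS hS' hM μ _ rfl, (mem_U_cons.1 hx).1]
    simp [hz, hl, B_zero_left]
  · rw [B_loop hS hS' hM μ _ (hx.1 e (by simp)), (mem_U_cons.1 hx).1]
    simp [hz, hr, B_zero_right]

theorem Rk.drop {M₁ M₂ : Multiset (List ε)} (h : Rk (M₁ + M₂) D μ r) (hD : D' ⊆ D)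
    (hM : ∀ l ∈ M₂, ∀ e ∈ l, e ∉ D') : Rk M₁ D' μ r := by
  refine h.lift id (fun x hx => ⟨fun e he => hx.1 e fun h => he (hD h), fun l hl => ?_⟩)
    fun x hx y _ => ?_
  · rcases Multiset.mem_add.1 hl with hl | hl
    · exact hx.2 l hl
    · exact sm_zero fun a ha => hx.1 a (hM l hl a ha)
  · unfold B
    simp only [id]
    rw [Multiset.map_add, Multiset.sum_add, Multiset.map_congr (s := M₂) rfl
      fun l hl => lf_zero_left y fun a ha => hx.1 a (hM l hl a ha)]
    simp

theorem Rk.filter {l : List ε} (h : Rk (l ::ₘ M) D μ r) (p : ε → Bool)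
    (hp : ∀ a, p a = false → a ∉ D) : Rk (l.filter p ::ₘ M) D μ r := by
  refine h.lift id (fun x hx => ?_) fun x hx y hy => ?_
  · obtain ⟨h1, h2⟩ := mem_U_cons.1 hx
    rw [sm_filter l p fun a ha => hx.1 a (hp a ha)] at h1
    exact mem_U_cons.2 ⟨h1, h2⟩
  · simp only [id, B_cons]
    rw [lf_filter l p (fun a ha => hx.1 a (hp a ha)) fun a ha => hy.1 a (hp a ha)]

end Pool.Agent.MP_de21d3_co.H91
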