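import Pool.Agent.MP_de21d3_co.H91.Alg
import Pool.Agent.MP_de21d3_co.H91.Defs

/-!
The rank of the intersection form is at most the Euler genus.
-/

set_option linter.unusedSectionVars false

namespace Pool.Agent.MP_de21d3_co.H91

open Module

section Dim

variable {ε : Type} [Fintype ε] [DecidableEq ε]

theorem B_add (M : Multiset (List ε)) (μ x x' y : Ch ε) :
    B M μ (x + x') y = B M μ x y + B M μ x' y := by
  unfold B mu
  simp only [lf_add, Multiset.sum_map_add, Pi.add_apply, mul_add, add_mul, Finset.sum_add_distrib]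
  ring

theorem B_smul (M : Multiset (List ε)) (μ x y : Ch ε) (c : ZMod 2) :
    B M μ (c • x) y = c * B M μ x y := by
  rcases z2 c with rfl | rfl
  · simp [B_zero_left]
  · simp

theorem dim_tri {M : Multiset (List ε)} {D : Set ε} {μ : Ch ε} (W : Submodule (ZMod 2) (Ch ε))
    (hW : ∀ x ∈ U M D, x ∈ W) (T : List (Ch ε × Ch ε)) (hT : Tri M D μ T)
    (N : Submodule (ZMod 2) (Ch ε)) (hN : N ≤ W) (h : ∀ n ∈ N, ∀ p ∈ T, B M μ n p.2 = 0) :
    finrank (ZMod 2) N + T.length ≤ finrank (ZMod 2) W := by
  induction T generalizing N with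
  | nil => simpa using Submodule.finrank_mono hN
  | cons p T ih =>
    obtain ⟨h1, h2, h3⟩ := hT.1 p (by simp)
    obtain ⟨h4, h5⟩ := List.pairwise_cons.1 hT.2
    have hp : p.1 ∉ N := fun hp => by
      have := h _ hp p (by simp)
      rw [h3] at this
      exact one_ne_zero this
    have hlt : N < N ⊔ Submodule.span (ZMod 2) {p.1} := by
      refine lt_of_le_of_ne le_sup_left fun he => hp ?_
      rw [he]
      exact Submodule.mem_sup_right (Submodule.mem_span_singleton_self _)
    have h6 := ih ⟨fun q hq => hT.1 q (by simp [hq]), h5⟩ (N ⊔ Submodule.span (ZMod 2) {p.1})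
      (sup_le hN ((Submodule.span_singleton_le_iff_mem _ _).2 (hW _ h1))) (by
        intro n hn q hq
        obtain ⟨a, ha, b, hb, rfl⟩ := Submodule.mem_sup.1 hn
        obtain ⟨c, rfl⟩ := Submodule.mem_span_singleton.1 hb
        rw [B_add, B_smul, h a ha q (by simp [hq]), h4 q hq]
        simp)
    have h7 := Submodule.finrank_lt_finrank_of_lt hlt
    simp only [List.length_cons]
    omega

theorem lf_chain (l : List ε) (am ap x y : Ch ε) (hx : ∀ a ∈ l, x a = am a + ap a)
    (hc : l.IsChain fun a b => ap a = am b) (a : ε) (ha : ∀ b ∈ l.head?, ap a = am b) :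
    lf l x y = ap a * sm l y + dg l am y := by
  induction l generalizing a with
  | nil => simp
  | cons b l ih =>
    have h1 := List.isChain_cons.1 hc
    rw [lf_cons, ih (fun c hc => hx c (by simp [hc])) h1.2 b h1.1, hx b (by simp),
      ha b (by simp), sm_cons, dg_cons]
    linear_combination (ap b * sm l y - am b * y b) * two

end Dim

variable {V : Type} [Fintype V] [DecidableEq V] {G : SimpleGraph V} (σ : Scheme G)

/-- The list of edges at a vertex. -/
def Scheme.ed (v : V) : List (Sym2 V) := (σ.rot v).map fun w => s(v, w)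

theorem Scheme.sum_ed (v : V) (f : Sym2 V → ZMod 2) (hf : ∀ w, ¬ G.Adj v w → f s(v, w) = 0) :
    ((σ.ed v).map f).sum = ∑ w, f s(v, w) := by
  unfold Scheme.ed
  rw [List.map_map, ← List.sum_toFinset _ (σ.nodup v)]
  refine Finset.sum_subset (Finset.subset_univ _) fun w _ hw => hf w fun h => hw ?_
  exact List.mem_toFinset.2 ((σ.mem v w).2 h)

theorem Scheme.mem_ed {v : V} {e : Sym2 V} : e ∈ σ.ed v ↔ ∃ w, G.Adj v w ∧ e = s(v, w) := by
  simp only [Scheme.ed, List.mem_map, σ.mem]
  exact exists_congr fun w => and_congr_right fun _ => eq_comm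

theorem Scheme.nodup_ed (v : V) : (σ.ed v).Nodup :=
  (σ.nodup v).map fun _ _ h => Sym2.congr_right.1 h

theorem Scheme.count_ed (v : V) {a b : V} (h : G.Adj a b) :
    (σ.ed v).count s(a, b) = if v = a ∨ v = b then 1 else 0 := by
  split_ifs with hv
  · refine List.count_eq_one_of_mem (σ.nodup_ed v) (σ.mem_ed.2 ?_)
    rcases hv with rfl | rfl
    · exact ⟨b, h, rfl⟩
    · exact ⟨a, h.symm, Sym2.eq_swap⟩
  · refine List.count_eq_zero_of_not_mem fun hm => hv ?_
    obtain ⟨w, -, hw⟩ := σ.mem_ed.1 hm
    rcases Sym2.eq_iff.1 hw with h | h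
    · exact Or.inl h.1.symm
    · exact Or.inr h.2.symm

open Classical in
/-- A function on faces, read on flags. -/
noncomputable def Scheme.val (a : Quot σ.Rel → ZMod 2) (u v : V) (b : Bool) : ZMod 2 :=
  if h : G.Adj u v then a (Quot.mk _ ⟨(u, v, b), h⟩) else 0

theorem Scheme.val_side (a : Quot σ.Rel → ZMod 2) (u v : V) (b : Bool) :
    σ.val a v u (if σ.sig s(u, v) then b else !b) = σ.val a u v b := by
  unfold Scheme.val
  by_cases h : G.Adj u v
  · rw [dif_pos h, dif_pos h.symm]
    congr 1
    exact (Quot.sound (r := σ.Rel) (Or.inl rfl)).symm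
  · rw [dif_neg h, dif_neg fun h' => h h'.symm]

theorem Scheme.val_corner (a : Quot σ.Rel → ZMod 2) {u v : V} (h : G.Adj u v) :
    σ.val a u v true = σ.val a u ((σ.rot u).formPerm v) false := by
  have h' : G.Adj u ((σ.rot u).formPerm v) :=
    (σ.mem _ _).1 (List.formPerm_apply_mem_of_mem ((σ.mem _ _).2 h))
  unfold Scheme.val
  rw [dif_pos h, dif_pos h']
  congr 1
  exact Quot.sound (Or.inr ⟨rfl, rfl⟩)

theorem Scheme.val_zero (a : Quot σ.Rel → ZMod 2) {u v : V} (h : ¬ G.Adj u v) (b : Bool) :
    σ.val a u v b = 0 := dif_neg h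

/-- The boundary of a set of faces. -/
noncomputable def Scheme.bd : (Quot σ.Rel → ZMod 2) →ₗ[ZMod 2] Ch (Sym2 V) where
  toFun a := Sym2.lift ⟨fun u v => σ.val a u v false + σ.val a u v true, fun u v => by
    have h1 := σ.val_side a u v false
    have h2 := σ.val_side a u v true
    cases hs : σ.sig s(u, v) <;> simp only [hs] at h1 h2 <;> simp_all [add_comm]⟩
  map_add' a a' := by
    funext e
    induction e using Sym2.ind with
    | h u v =>
      simp only [Sym2.lift_mk, Pi.add_apply, Scheme.val]
      split_ifs <;> ring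
  map_smul' c a := by
    funext e
    induction e using Sym2.ind with
    | h u v =>
      simp only [Sym2.lift_mk, Pi.smul_apply, Scheme.val, RingHom.id_apply, smul_eq_mul]
      split_ifs <;> ring

theorem Scheme.bd_mk (a : Quot σ.Rel → ZMod 2) (u v : V) :
    σ.bd a s(u, v) = σ.val a u v false + σ.val a u v true := rfl

/-- The lists of edges at the vertices of `R`. -/
def Scheme.ms (R : Finset V) : Multiset (List (Sym2 V)) := R.val.map σ.ed

/-- The untwisted edges. -/
def Scheme.mu0 : Ch (Sym2 V) := fun e => if σ.sig e then 0 else 1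

theorem Scheme.bd_mem (a : Quot σ.Rel → ZMod 2) : σ.bd a ∈ U (σ.ms Finset.univ) G.edgeSet := by
  refine ⟨fun e he => ?_, fun l hl => ?_⟩
  · induction e using Sym2.ind with
    | h u v => rw [σ.bd_mk, σ.val_zero a he, σ.val_zero a he, add_zero]
  · obtain ⟨u, -, rfl⟩ := Multiset.mem_map.1 hl
    have h1 : sm (σ.ed u) (σ.bd a) = sm (σ.rot u) (fun v => σ.val a u v false) +
        sm ((σ.rot u).map (σ.rot u).formPerm) fun v => σ.val a u v false := by
      unfold Scheme.ed sm
      rw [List.map_map, List.map_map, ← List.sum_map_add]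
      congr 1
      refine List.map_congr_left fun v hv => ?_
      simp only [Function.comp, σ.bd_mk, σ.val_corner a ((σ.mem _ _).1 hv)]
    have h2 : ((σ.rot u).map (σ.rot u).formPerm).Perm (σ.rot u) := by
      have : (σ.rot u).map (σ.rot u).formPerm = (σ.rot u).rotate 1 := by
        refine List.ext_getElem (by simp) fun i h1 h2 => ?_
        rw [List.getElem_map, List.formPerm_apply_getElem _ (σ.nodup u), List.getElem_rotate]
      rw [this]
      exact List.rotate_perm _ _
    rw [h1]
    unfold sm
    rw [(h2.map _).sum_eq]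
    exact CharTwo.add_self_eq_zero _

theorem Scheme.lf_bd (a : Quot σ.Rel → ZMod 2) (u : V) (y : Ch (Sym2 V))
    (hy : sm (σ.ed u) y = 0) :
    lf (σ.ed u) (σ.bd a) y = ∑ v, σ.val a u v false * y s(u, v) := by
  have key : ∀ l : List V, lf (l.map fun w => s(u, w)) (σ.bd a) y =
      lf l (fun v => σ.bd a s(u, v)) (fun v => y s(u, v)) := by
    intro l
    induction l with
    | nil => rfl
    | cons b l ih => simp only [List.map_cons, lf_cons, ih, sm, List.map_map]; rfl
  have hy' : sm (σ.rot u) (fun v => y s(u, v)) = 0 := by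
    rw [← hy]
    simp only [sm, Scheme.ed, List.map_map]
    rfl
  have hch : (σ.rot u).IsChain fun v w => σ.val a u v true = σ.val a u w false := by
    rw [List.isChain_iff_getElem]
    intro i hi
    rw [σ.val_corner a ((σ.mem _ _).1 (List.getElem_mem _)),
      List.formPerm_apply_lt_getElem _ (σ.nodup u) i hi]
  have hsum : dg (σ.rot u) (fun v => σ.val a u v false) (fun v => y s(u, v)) =
      ∑ v, σ.val a u v false * y s(u, v) := by
    unfold dg
    rw [← List.sum_toFinset _ (σ.nodup u)]
    refine Finset.sum_subset (Finset.subset_univ _) fun w _ hw => ?_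
    simp only [σ.val_zero a fun h => hw (List.mem_toFinset.2 ((σ.mem u w).2 h)), zero_mul]
  unfold Scheme.ed
  rw [key, ← hsum]
  generalize σ.rot u = l at hy' hch
  cases l with
  | nil => simp
  | cons b l =>
    have h1 := List.isChain_cons.1 hch
    rw [lf_cons, lf_chain l (fun v => σ.val a u v false) (fun v => σ.val a u v true) _ _
      (fun _ _ => σ.bd_mk a _ _) h1.2 b h1.1, σ.bd_mk, dg_cons]
    rw [sm_cons] at hy'
    linear_combination (σ.val a u b false) * hy' +
      (σ.val a u b true * sm l (fun v => y s(u, v)) - σ.val a u b false * y s(u, b)) * two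

theorem Scheme.B_bd (a : Quot σ.Rel → ZMod 2) {y : Ch (Sym2 V)}
    (hy : y ∈ U (σ.ms Finset.univ) G.edgeSet) : B (σ.ms Finset.univ) σ.mu0 (σ.bd a) y = 0 := by
  have h1 : ((σ.ms Finset.univ).map fun l => lf l (σ.bd a) y).sum =
      ∑ p : V × V, σ.val a p.1 p.2 false * y s(p.1, p.2) := by
    unfold Scheme.ms
    rw [Multiset.map_map, Fintype.sum_prod_type]
    exact Finset.sum_congr rfl fun u _ =>
      σ.lf_bd a u y (hy.2 _ (Multiset.mem_map.2 ⟨u, Finset.mem_univ_val _, rfl⟩))
  unfold B mu
  rw [h1, ← Finset.sum_fiberwise Finset.univ (fun p : V × V => s(p.1, p.2)),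
    ← Finset.sum_add_distrib]
  refine Finset.sum_eq_zero fun e _ => ?_
  induction e using Sym2.ind with
  | h u v =>
    by_cases h : G.Adj u v
    · have h2 : (Finset.univ.filter fun p : V × V => s(p.1, p.2) = s(u, v)) = {(u, v), (v, u)} := by
        ext ⟨c, d⟩
        simp
      rw [h2, Finset.sum_pair (by simp [h.ne]), σ.bd_mk, Sym2.eq_swap (a := v)]
      have h3 := σ.val_side a u v false
      have h4 := σ.val_side a u v true
      unfold Scheme.mu0
      cases hs : σ.sig s(u, v)
      · simp only [hs, Bool.false_eq_true, if_false, Bool.not_true] at h4 ⊢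
        rw [h4]
        linear_combination (σ.val a u v false * y s(u, v) + σ.val a u v true * y s(u, v)) * two
      · simp only [hs, if_true] at h3 ⊢
        rw [h3]
        linear_combination (σ.val a u v false * y s(u, v)) * two
    · have h2 : y s(u, v) = 0 := hy.1 _ h
      rw [h2, mul_zero, add_zero]
      refine Finset.sum_eq_zero fun p hp => ?_
      rw [(Finset.mem_filter.1 hp).2, h2, mul_zero]

theorem Scheme.ker_bd (hG : G.Connected) :
    LinearMap.ker σ.bd ≤ Submodule.span (ZMod 2) {fun _ => 1} := by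
  intro a ha
  have h0 : ∀ u v b, σ.val a u v b = σ.val a u v false := by
    intro u v b
    have := congrFun (LinearMap.mem_ker.1 ha) s(u, v)
    rw [σ.bd_mk, Pi.zero_apply] at this
    cases b
    · rfl
    · linear_combination this - σ.val a u v false * two
  have h1 : ∀ u v, σ.val a v u false = σ.val a u v false := fun u v => by
    rw [← σ.val_side a u v false]
    exact (h0 v u _).symm
  have h2 : ∀ u v w, G.Adj u v → G.Adj u w → σ.val a u v false = σ.val a u w false := by
    intro u v w hv hw
    have key : ∀ i (hi : i < (σ.rot u).length),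
        σ.val a u (σ.rot u)[i] false = σ.val a u (σ.rot u)[0] false := by
      intro i
      induction i with
      | zero => intro _; rfl
      | succ i ih =>
        intro hi
        rw [← ih (by omega), ← List.formPerm_apply_lt_getElem _ (σ.nodup u) i hi,
          ← σ.val_corner a ((σ.mem _ _).1 (List.getElem_mem _)), h0]
    obtain ⟨i, hi, rfl⟩ := List.getElem_of_mem ((σ.mem _ _).2 hv)
    obtain ⟨j, hj, rfl⟩ := List.getElem_of_mem ((σ.mem _ _).2 hw)
    rw [key i hi, key j hj]
  have h3 : ∀ u u' (p : G.Walk u u') v v', G.Adj u v → G.Adj u' v' →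
      σ.val a u v false = σ.val a u' v' false := by
    intro u u' p
    induction p with
    | nil => exact fun v v' => h2 _ v v'
    | cons h p ih =>
      intro v v' hv hv'
      rw [h2 _ v _ hv h, ← h1, ih _ v' h.symm hv']
  have h4 : ∀ q q' : Quot σ.Rel, a q = a q' := by
    rintro ⟨⟨u, v, b⟩, h⟩ ⟨⟨u', v', b'⟩, h'⟩
    obtain ⟨p⟩ := hG.preconnected u u'
    have := h3 u u' p v v' h h'
    rw [← h0 u v b, ← h0 u' v' b'] at this
    unfold Scheme.val at this
    rwa [dif_pos h, dif_pos h'] at this
  rw [Submodule.mem_span_singleton]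
  by_cases hq : Nonempty (Quot σ.Rel)
  · obtain ⟨q⟩ := hq
    exact ⟨a q, funext fun q' => by simp [h4 q q']⟩
  · exact ⟨0, funext fun q => absurd ⟨q⟩ hq⟩

theorem Scheme.rk0 (hG : G.Connected) (g : ℕ)
    (hg : Nat.card G.edgeSet + 2 ≤ Nat.card V + σ.faces + g) :
    Rk (σ.ms Finset.univ) G.edgeSet σ.mu0 g := by
  classical
  intro T hT
  have : Finite (Flag G) := by unfold Flag; infer_instance
  have : Fintype (Quot σ.Rel) := Fintype.ofFinite _
  let ex : (G.edgeSet → ZMod 2) →ₗ[ZMod 2] Ch (Sym2 V) :=
    { toFun := fun x e => if h : e ∈ G.edgeSet then x ⟨e, h⟩ else 0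
      map_add' := fun x y => funext fun e => by
        simp only [Pi.add_apply]
        split_ifs <;> simp
      map_smul' := fun c x => funext fun e => by
        simp only [Pi.smul_apply, RingHom.id_apply]
        split_ifs <;> simp }
  let de : Ch (Sym2 V) →ₗ[ZMod 2] (V → ZMod 2) :=
    { toFun := fun x v => sm (σ.ed v) x
      map_add' := fun x y => funext fun v => sm_add _ _ _
      map_smul' := fun c x => funext fun v => sm_smul _ _ _ }
  have hW : ∀ x ∈ U (σ.ms Finset.univ) G.edgeSet,
      x ∈ (LinearMap.ker (de ∘ₗ ex)).map ex := by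
    intro x hx
    have h1 : ex (fun e => x e) = x := funext fun e => by
      by_cases h : e ∈ G.edgeSet
      · exact dif_pos h
      · exact (dif_neg h).trans (hx.1 e h).symm
    refine ⟨fun e => x e, ?_, h1⟩
    change de (ex _) = 0
    rw [h1]
    exact funext fun v => hx.2 _ (Multiset.mem_map.2 ⟨v, Finset.mem_univ_val _, rfl⟩)
  have h1 := dim_tri _ hW T hT (LinearMap.range σ.bd)
    (by rintro _ ⟨a, rfl⟩; exact hW _ (σ.bd_mem a))
    (by rintro _ ⟨a, rfl⟩ p hp; exact σ.B_bd a (hT.1 p hp).2.1)
  have h2 := Submodule.finrank_map_le ex (LinearMap.ker (de ∘ₗ ex))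
  have h3 := LinearMap.finrank_range_add_finrank_ker (de ∘ₗ ex)
  have h4 := LinearMap.finrank_range_add_finrank_ker σ.bd
  have h5 := (Submodule.finrank_mono (σ.ker_bd hG)).trans (finrank_span_le_card _)
  obtain ⟨v0⟩ := hG.nonempty
  have h6 : LinearMap.range (de ∘ₗ ex) ⊔ Submodule.span (ZMod 2) {Pi.single v0 1} = ⊤ := by
    set W := LinearMap.range (de ∘ₗ ex) ⊔ Submodule.span (ZMod 2) {Pi.single v0 1}
    have key : ∀ u v (p : G.Walk u v), (Pi.single v 1 : V → ZMod 2) ∈ W → Pi.single u 1 ∈ W := by
      intro u v p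
      induction p with
      | nil => exact id
      | @cons a b c h p ih =>
        intro hv
        have e1 : (de ∘ₗ ex) (Pi.single ⟨s(a, b), h⟩ 1) =
            (Pi.single a 1 + Pi.single b 1 : V → ZMod 2) := by
          have e2 : ex (Pi.single ⟨s(a, b), h⟩ 1) =
              Function.update (0 : Ch (Sym2 V)) s(a, b) 1 := by
            funext e
            change (if h' : e ∈ G.edgeSet then _ else 0) = _
            by_cases he : e = s(a, b)
            · subst he
              rw [dif_pos (show s(a, b) ∈ G.edgeSet from h)]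
              simp
            · rw [Function.update_of_ne he]
              split_ifs
              · refine Pi.single_eq_of_ne (M := fun _ : G.edgeSet => ZMod 2) (fun h' => he ?_) _
                exact congrArg Subtype.val h'
              · rfl
          funext w
          change sm (σ.ed w) (ex _) = _
          rw [e2, sm_single, σ.count_ed w h]
          have := h.ne
          by_cases h1 : w = a <;> by_cases h2 : w = b <;> simp_all
        have e3 : (Pi.single a 1 + Pi.single b 1 : V → ZMod 2) ∈ W :=
          Submodule.mem_sup_left ⟨_, e1⟩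
        simpa using W.sub_mem e3 (ih hv)
    rw [eq_top_iff, ← (Pi.basisFun (ZMod 2) V).span_eq, Submodule.span_le]
    rintro _ ⟨u, rfl⟩
    obtain ⟨p⟩ := hG.preconnected u v0
    rw [Pi.basisFun_apply]
    exact key u v0 p (Submodule.mem_sup_right (Submodule.mem_span_singleton_self _))
  have h7 := Submodule.finrank_add_le_finrank_add_finrank (LinearMap.range (de ∘ₗ ex))
    (Submodule.span (ZMod 2) {(Pi.single v0 1 : V → ZMod 2)})
  have h8 := finrank_span_le_card (R := ZMod 2) ({Pi.single v0 1} : Set (V → ZMod 2))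
  rw [h6, finrank_top] at h7
  simp only [finrank_fintype_fun_eq_card, Set.toFinset_singleton, Finset.card_singleton,
    Scheme.faces, Nat.card_eq_fintype_card] at h3 h4 h5 h7 h8 hg
  omega

end Pool.Agent.MP_de21d3_co.H91
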