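import Pool.Agent.MP_de21d3_co.H91.Path

/-!
The strategy of the cops.
-/

set_option linter.unusedSectionVars false

namespace Pool.Agent.MP_de21d3_co.H91

variable {V : Type} [Fintype V] [DecidableEq V] {G : SimpleGraph V} {k : ℕ}

/-- The edges of the list that leave `R` are guarded by the cops in `S`. -/
def Gd (G : SimpleGraph V) (R : Finset V) (l : List (Sym2 V)) (S : Finset (Fin k))
    (f : Fin k → V → V) : Prop :=
  ∀ a ∈ R, ∀ b, b ∉ R → G.Adj a b → s(a, b) ∈ l → ∃ i ∈ S, near G (f i a) b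

/-- The invariant. -/
structure Pre (σ : Scheme G) (R : Finset V) (l1 l2 : List (Sym2 V)) (r : ℕ) (y z : Fin k)
    (A : Finset (Fin k)) (f : Fin k → V → V) : Prop where
  rk : ∃ D μ, Rk ((l1 ++ l2) ::ₘ σ.ms R) D μ r ∧ ∀ a ∈ R, ∀ b, G.Adj a b → s(a, b) ∈ D
  cnt : Cnt G R (l1 ++ l2)
  lip : ∀ i ∈ insert y (insert z A), Lip G R (f i)
  g1 : Gd G R l1 (insert y A) f
  g2 : Gd G R l2 (insert z A) f
  hy : y ∉ A
  hz : z ∉ A
  hyz : y ≠ z
  card : A.card + r + 3 ≤ k
  ne : ∃ v, v ∉ R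

/-- The cops win as soon as those in `S` are on their shadows. -/
def Good (G : SimpleGraph V) (R : Finset V) (S : Finset (Fin k)) (f : Fin k → V → V) : Prop :=
  ∀ c : Fin k → V, ∀ r ∈ R, (∀ i ∈ S, c i = f i r) → RWin G c r

variable {σ : Scheme G} {R R' : Finset V} {l l' l1 l2 : List (Sym2 V)} {r : ℕ} {y z : Fin k}
  {A S S' : Finset (Fin k)} {f f' : Fin k → V → V}

theorem Gd.old (h : Gd G R l S f) {L : List (Sym2 V)} (hc : Cnt G R L) (hL : l ⊆ L) (hR : R' ⊆ R)
    (hl : l' ⊆ l) (hS : ∀ i ∈ S, i ∈ S' ∧ f' i = f i) : Gd G R' l' S' f' := by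
  intro a ha b _ hab hm
  obtain ⟨i, hi, h1⟩ := h a (hR ha) b (hc.out (hR ha) hab (hL (hl hm))) hab (hl hm)
  exact ⟨i, (hS i hi).1, by rwa [(hS i hi).2]⟩

theorem Gd.new {P : List V} {N : List (Sym2 V)} {h : V → V} {x : Fin k}
    (h1 : ∀ a ∈ R \ P.toFinset, ∀ b, s(a, b) ∈ N → b ∈ P)
    (h2 : ∀ a ∈ R, ∀ b ∈ P, G.Adj a b → near G (h a) b) (hR : R' ⊆ R \ P.toFinset) (hl : l' ⊆ N)
    (hx : x ∈ S') (hf : f' x = h) : Gd G R' l' S' f' := fun a ha b _ hab hm =>
  ⟨x, hx, hf ▸ h2 a (Finset.mem_sdiff.1 (hR ha)).1 b (h1 a (hR ha) b (hl hm)) hab⟩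

theorem Gd.append (h : Gd G R l S f) (h' : Gd G R l' S f) : Gd G R (l ++ l') S f :=
  fun a ha b hb hab hm => (List.mem_append.1 hm).elim (h a ha b hb hab) (h' a ha b hb hab)

theorem Gd.guard (h : Gd G R l S f) (hc : Cnt G R l) (hl : ∀ i ∈ S, Lip G R (f i)) :
    Guard G R S f := by
  refine ⟨hl, fun a ha b hb hab => h a ha b hb hab ?_⟩
  have := hc a ha b hab
  rw [if_neg hb] at this
  exact List.count_pos_iff.1 (by omega)

theorem Lip.mono {h : V → V} (hl : Lip G R h) (hR : R' ⊆ R) : Lip G R' h :=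
  fun a ha b hb => hl a (hR ha) b (hR hb)

theorem lip_update {h : V → V} {x : Fin k} (h1 : ∀ i ∈ S, Lip G R (f i)) (h2 : Lip G R h)
    (hR : R' ⊆ R) (hS : S' ⊆ insert x S) : ∀ i ∈ S', Lip G R' (Function.update f x h i) := by
  intro i hi
  by_cases hx : i = x
  · rw [hx, Function.update_self]
    exact h2.mono hR
  · rw [Function.update_of_ne hx]
    exact (h1 i ((Finset.mem_insert.1 (hS hi)).resolve_left hx)).mono hR

theorem pos_update {h : V → V} {x : Fin k} {c : Fin k → V} {a : V} (h1 : ∀ i ∈ S, c i = f i a)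
    (h2 : c x = h a) (hS : S' ⊆ insert x S) : ∀ i ∈ S', c i = Function.update f x h i a := by
  intro i hi
  by_cases hx : i = x
  · rw [hx, Function.update_self, h2]
  · rw [Function.update_of_ne hx]
    exact h1 i ((Finset.mem_insert.1 (hS hi)).resolve_left hx)

theorem Cnt.congr (h : Cnt G R l) (hl : ∀ a ∈ R, ∀ b, l'.count s(a, b) = l.count s(a, b)) :
    Cnt G R l' := fun a ha b hab => (hl a ha b).trans (h a ha b hab)

theorem Pre.symm (h : Pre σ R l1 l2 r y z A f) : Pre σ R l2 l1 r z y A f := by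
  obtain ⟨D, μ, h1, h2⟩ := h.rk
  exact ⟨⟨D, μ, h1.rot, h2⟩, h.cnt.congr fun a _ b => by simp [add_comm],
    fun i hi => h.lip i (by rwa [Finset.insert_comm]), h.g2, h.g1, h.hz, h.hy, h.hyz.symm,
    h.card, h.ne⟩

theorem Pre.all (h : Pre σ R l1 l2 r y z A f) :
    Gd G R (l1 ++ l2) (insert y (insert z A)) f :=
  (h.g1.old h.cnt (by simp) subset_rfl (List.Subset.refl _) (by grind)).append
    (h.g2.old h.cnt (by simp) subset_rfl (List.Subset.refl _) (by grind))

theorem card_lt {u v : V} (hu : u ∈ R) (p : (GR G R).Walk u v) (hR : R' ⊆ R \ p.support.toFinset) :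
    R'.card < R.card := by
  refine Finset.card_lt_card ⟨fun a ha => (Finset.mem_sdiff.1 (hR ha)).1, fun h => ?_⟩
  exact (Finset.mem_sdiff.1 (hR (h hu))).2 (List.mem_toFinset.2 p.start_mem_support)

theorem exists_free (S : Finset (Fin k)) (h : S.card < k) : ∃ x, x ∉ S := by
  by_contra h'
  have : S = Finset.univ := Finset.eq_univ_iff_forall.2 fun x => by_contra fun hx => h' ⟨x, hx⟩
  simp [this] at h

theorem split_one {e : Sym2 V} {N : List (Sym2 V)} (h : N.count e = 1) :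
    ∃ M1 M2, N = M1 ++ e :: M2 ∧ e ∉ M1 ∧ e ∉ M2 := by
  obtain ⟨M1, M2, rfl⟩ := List.append_of_mem (List.count_pos_iff.1 (show 0 < N.count e by omega))
  rw [List.count_append, List.count_cons_self] at h
  exact ⟨M1, M2, rfl, List.count_eq_zero.1 (by omega), List.count_eq_zero.1 (by omega)⟩

theorem ne_of_out {a b c d : V} (ha : a ∈ R) (hc : c ∉ R) (hd : d ∉ R) : s(a, b) ≠ s(c, d) := by
  intro h
  rcases Sym2.eq_iff.1 h with h | h
  · exact hc (h.1 ▸ ha)
  · exact hd (h.1 ▸ ha)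

/-- The induction hypothesis. -/
def IH (σ : Scheme G) (k n : ℕ) : Prop :=
  ∀ R : Finset V, R.card < n → ∀ (l1 l2 : List (Sym2 V)) (r : ℕ) (y z : Fin k)
    (A : Finset (Fin k)) (f : Fin k → V → V), Pre σ R l1 l2 r y z A f →
      Good G R (insert y (insert z A)) f

theorem core_ext (hG : G.Connected) (ih : IH σ k R.card) (h : Pre σ R [] l2 r y z A f)
    (hR : ∀ a ∈ R, ∀ b ∈ R, (GR G R).Reachable a b)
    (hm : ∀ g ∈ l2, ∃ a ∈ R, ∃ b, b ∉ R ∧ G.Adj a b ∧ g = s(a, b)) :
    Good G R (insert y (insert z A)) f := by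
  intro c r0 hr0 hc
  have hcnt : Cnt G R l2 := h.cnt
  rcases List.eq_nil_or_concat' l2 with rfl | ⟨L, e, rfl⟩
  · obtain ⟨v, hv⟩ := h.ne
    obtain ⟨p⟩ := hG.preconnected r0 v
    obtain ⟨d, -, h1, h2⟩ := p.exists_boundary_dart (R : Set V) hr0 hv
    have := hcnt _ h1 _ d.adj
    rw [if_neg (show d.toProd.2 ∉ R from h2)] at this
    simp at this
  obtain ⟨u, hu, b0, hb0, hub, rfl⟩ := hm e (by simp)
  obtain ⟨p, sh, hp, hL, hsh, hgame⟩ := exists_guard (k := k) hG hR hu hu
  obtain ⟨D, μ, hrk, hD⟩ := h.rk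
  obtain ⟨N, μ', D', h1, -, -, h4, h5, h6, -⟩ := σ.remove p hp hu hb0 hub hcnt hD hrk
  have hy : y ∉ insert z A := by simp [h.hy, h.hyz]
  have hl : ∀ i ∈ insert z A, Lip G R (f i) := fun i hi => h.lip i (Finset.mem_insert_of_mem hi)
  refine hgame (insert z A) f y hy (h.g2.guard hcnt hl) (fun c r hr hrp hc hcy => ?_) c r0 hr0
    fun i hi => hc i (Finset.mem_insert_of_mem hi)
  refine ih _ (card_lt hu p subset_rfl) L N _ z y A (Function.update f y sh)
    ⟨⟨D', μ', h1, h4⟩, h5, lip_update hl hL Finset.sdiff_subset (by grind),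
      h.g2.old hcnt (List.Subset.refl _) Finset.sdiff_subset (by simp) (by grind),
      Gd.new h6 hsh subset_rfl (List.Subset.refl _) (x := y) (by simp) (by simp), h.hz, h.hy, h.hyz.symm,
      h.card, b0, fun h => hb0 (Finset.mem_sdiff.1 h).1⟩ c r (by simp [hr, hrp])
    (pos_update hc hcy (by grind))

theorem core_two (hG : G.Connected) {n : ℕ} (ih : IH σ k n) (hn : R.card ≤ n)
    (hR : ∀ a ∈ R, ∀ b ∈ R, (GR G R).Reachable a b) {u1 b1 : V} (hu1 : u1 ∉ R) (hb1 : b1 ∉ R)
    {f1 f2 : Sym2 V} {A1 D2 : List (Sym2 V)} {D : Set (Sym2 V)} {μ : Ch (Sym2 V)}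
    (hrk : Rk ((s(u1, b1) :: (f2 :: D2) ++ s(u1, b1) :: (A1 ++ [f1])) ::ₘ σ.ms R) D μ r)
    (hD : ∀ a ∈ R, ∀ b, G.Adj a b → s(a, b) ∈ D) (heD : s(u1, b1) ∈ D) (hμ : μ s(u1, b1) = 1)
    (hc : Cnt G R ((f2 :: D2) ++ (A1 ++ [f1])))
    (hm : ∀ g ∈ (f2 :: D2) ++ (A1 ++ [f1]), ∃ a ∈ R, ∃ b, G.Adj a b ∧ g = s(a, b))
    (hl : ∀ i ∈ insert y (insert z A), Lip G R (f i))
    (g1 : Gd G R (A1 ++ [f1]) (insert y A) f) (g2 : Gd G R (f2 :: D2) (insert z A) f)
    (hy : y ∉ A) (hz : z ∉ A) (hyz : y ≠ z) (hk : A.card + r + 2 ≤ k) :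
    Good G R (insert y (insert z A)) f := by
  obtain ⟨w0, hw0, c0, hwc0, rfl⟩ := hm f1 (by simp)
  obtain ⟨w1, hw1, c1, hwc1, rfl⟩ := hm f2 (by simp)
  have hc0 : c0 ∉ R := hc.out hw0 hwc0 (by simp)
  have hc1 : c1 ∉ R := hc.out hw1 hwc1 (by simp)
  have he : ∀ g ∈ (s(w1, c1) :: D2) ++ (A1 ++ [s(w0, c0)]), g ≠ s(u1, b1) := by
    intro g hg
    obtain ⟨a, ha, b, -, rfl⟩ := hm g hg
    exact ne_of_out ha hu1 hb1
  have hone := hc w1 hw1 c1 hwc1
  rw [if_neg hc1] at hone
  simp only [List.count_append, List.count_cons_self] at hone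
  have hf1 : s(w1, c1) ≠ s(w0, c0) := by
    intro h
    rw [h, List.count_cons_self] at hone
    omega
  have hf2 : s(w1, c1) ∉ D2 := List.count_eq_zero.1 (by omega)
  have hf3 : s(w1, c1) ∉ A1 := List.count_eq_zero.1 (by omega)
  obtain ⟨p, sh, hp, hL, hsh, hgame⟩ := exists_guard (k := k) hG hR hw0 hw1
  obtain ⟨N, μ', D', h1, h2, h3, h4, h5, h6, h7⟩ := σ.remove p hp hw0 hc0 hwc0
    (A := s(u1, b1) :: (s(w1, c1) :: D2) ++ s(u1, b1) :: A1) (D := D) (μ := μ) (r := r)
    (hc.congr fun a ha b => by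
      have := (ne_of_out (b := b) ha hu1 hb1).symm
      simp [List.count_cons, this]) hD (by simpa using hrk)
  obtain ⟨N1, N2, rfl, hN1, hN2⟩ := split_one (h7 c1 hc1 hwc1 hf1)
  have hs := supp_GR hw0 p
  set R2 := R \ p.support.toFinset with hR2
  have hsub : R2 ⊆ R := Finset.sdiff_subset
  have hw1' : w1 ∉ R2 := fun h => (Finset.mem_sdiff.1 h).2 (List.mem_toFinset.2 p.end_mem_support)
  have hfD : s(w1, c1) ∈ D' := by
    rw [Sym2.eq_swap]
    exact h3 c1 w1 (by rw [Sym2.eq_swap]; exact hD w1 hw1 c1 hwc1)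
      (by rw [Sym2.eq_swap]; exact hf1) fun h => hc1 (hs _ h)
  have hfM := σ.not_mem_ms hw1' fun h => hc1 (hsub h)
  obtain ⟨r', rfl, h8⟩ := Rk.cut2 (S := s(w1, c1) :: D2) (S' := A1 ++ (N1 ++ s(w1, c1) :: N2))
    (e := s(u1, b1)) (f := s(w1, c1)) (by simpa using h1)
    (fun h => he _ (List.mem_append_left _ h) rfl)
    (fun h => (List.mem_append.1 h).elim
      (fun h => he _ (List.mem_append_right _ (List.mem_append_left _ h)) rfl)
      (h2 u1 b1 hu1 hb1).2)
    (σ.not_mem_ms (fun h => hu1 (hsub h)) fun h => hb1 (hsub h))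
    (h3 u1 b1 heD (he _ (by simp)).symm fun h => hu1 (hs _ h))
    ((h2 u1 b1 hu1 hb1).1.trans hμ) (by simp [List.count_eq_zero_of_not_mem hf2])
    (by simp [List.count_eq_zero_of_not_mem hf3, List.count_eq_zero_of_not_mem hN1,
      List.count_eq_zero_of_not_mem hN2]) hfM hfD
  rw [Multiset.cons_swap] at h8
  have h9 := Rk.rot (A := A1 ++ N1 ++ [s(w1, c1)]) (C := N2) (by simpa using h8)
  obtain ⟨C, μ'', h10, -, h11⟩ := Rk.contract (A := N2 ++ (A1 ++ N1)) (D := D' \ {s(u1, b1)})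
    (by simpa using h9)
    (by simp [hf3, hN1, hN2]) hf2 hfM ⟨hfD, he _ (by simp)⟩
  obtain ⟨w, hw⟩ := exists_free (insert y (insert z A)) (by
    have := Finset.card_insert_le y (insert z A)
    have := Finset.card_insert_le z A
    omega)
  have hall : Gd G R ((s(w1, c1) :: D2) ++ (A1 ++ [s(w0, c0)])) (insert y (insert z A)) f :=
    (g2.old hc (List.subset_append_left _ _) subset_rfl (List.Subset.refl _) (by clear * - hw hy hz hyz; grind)).append
      (g1.old hc (List.subset_append_right _ _) subset_rfl (List.Subset.refl _) (by clear * - hw hy hz hyz; grind))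
  refine hgame _ f w hw (hall.guard hc hl) fun c r hr hrp hcc hcw => ?_
  have hnew : ∀ l', l' ⊆ N1 ++ s(w1, c1) :: N2 →
      Gd G R2 l' (insert y (insert w A)) (Function.update f w sh) := fun l' hl' =>
    Gd.new h6 hsh subset_rfl hl' (x := w) (by simp) (by simp)
  refine ih _ ((card_lt hw0 p subset_rfl).trans_le hn) (N2 ++ (A1 ++ N1)) C r' y z (insert w A)
    (Function.update f w sh) ⟨⟨_, μ'', h11, fun a ha b hab => ⟨⟨h4 a ha b hab, ?_⟩, ?_⟩⟩,
      h5.congr fun a ha b => ?_, lip_update hl hL hsub (by clear * - hw hy hz hyz; grind),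
      (hnew _ (by clear * - hw hy hz hyz; grind)).append (Gd.append ?_ (hnew _ (by simp))), ?_, (by clear * - hw hy hz hyz; grind), (by clear * - hw hy hz hyz; grind), hyz,
      ?_, b1, fun h => hb1 (hsub h)⟩ c r (by simp [hR2, hr, hrp]) (pos_update hcc hcw (by clear * - hw hy hz hyz; grind))
  · exact ne_of_out (hsub ha) hu1 hb1
  · exact ne_of_out ha hw1' fun h => hc1 (hsub h)
  · have e1 := (ne_of_out (b := b) (hsub ha) hu1 hb1).symm
    have e2 := (ne_of_out (b := b) ha hw1' fun h => hc1 (hsub h)).symm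
    simp only [List.count_append, h10.count_eq, List.count_cons_of_ne e1, List.count_cons_of_ne e2]
    omega
  · exact g1.old hc (List.subset_append_right _ _) hsub (by simp) (by clear * - hw hy hz hyz; grind)
  · exact g2.old hc (by simp) hsub (fun a ha => List.mem_cons_of_mem _ (h10.subset ha)) (by clear * - hw hy hz hyz; grind)
  · have := Finset.card_insert_le w A
    omega

theorem core_main (hG : G.Connected) (ih : IH σ k R.card) {e0 e1 : Sym2 V}
    (h : Pre σ R (e0 :: l1) (e1 :: l2) r y z A f)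
    (hR : ∀ a ∈ R, ∀ b ∈ R, (GR G R).Reachable a b)
    (hm : ∀ g ∈ (e0 :: l1) ++ (e1 :: l2), ∃ a ∈ R, ∃ b, b ∉ R ∧ G.Adj a b ∧ g = s(a, b)) :
    Good G R (insert y (insert z A)) f := by
  obtain ⟨u0, hu0, b0, hb0, hub0, rfl⟩ := hm e0 (by simp)
  obtain ⟨u1, hu1, b1, hb1, hub1, rfl⟩ := hm e1 (by simp)
  have hc := h.cnt
  have hone := hc u1 hu1 b1 hub1
  rw [if_neg hb1] at hone
  simp only [List.count_append, List.count_cons_self] at hone
  have he0 : s(u1, b1) ≠ s(u0, b0) := by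
    intro h
    rw [h, List.count_cons_self] at hone
    omega
  have he1 : s(u1, b1) ∉ l1 := by
    rw [List.count_cons_of_ne he0.symm] at hone
    exact List.count_eq_zero.1 (by omega)
  have he2 : s(u1, b1) ∉ l2 := List.count_eq_zero.1 (by omega)
  obtain ⟨p, sh, hp, hL, hsh, hgame⟩ := exists_guard (k := k) hG hR hu0 hu1
  obtain ⟨D, μ, hrk, hD⟩ := h.rk
  obtain ⟨N, μ', D', h1, -, h3, h4, h5, h6, h7⟩ := σ.remove p hp hu0 hb0 hub0
    (A := l1 ++ s(u1, b1) :: l2) (D := D) (μ := μ) (r := r)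
    (hc.congr fun a ha b => by simp only [List.count_append, List.count_cons]; simp; omega) hD
    (Rk.rot (A := [s(u0, b0)]) (by simpa using hrk))
  obtain ⟨M1, M2, rfl, hM1, hM2⟩ := split_one (h7 b1 hb1 hub1 he0)
  have hs := supp_GR hu0 p
  set R1 := R \ p.support.toFinset with hR1
  have hsub : R1 ⊆ R := Finset.sdiff_subset
  have hu1' : u1 ∉ R1 := fun h => (Finset.mem_sdiff.1 h).2 (List.mem_toFinset.2 p.end_mem_support)
  have hb1' : b1 ∉ R1 := fun h => hb1 (hsub h)
  have heD : s(u1, b1) ∈ D' := by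
    rw [Sym2.eq_swap]
    exact h3 b1 u1 (by rw [Sym2.eq_swap]; exact hD u1 hu1 b1 hub1)
      (by rw [Sym2.eq_swap]; exact he0) fun h => hb1 (hs _ h)
  have heM := σ.not_mem_ms hu1' hb1'
  have h8 : Rk ((s(u1, b1) :: (l2 ++ M1) ++ s(u1, b1) :: (M2 ++ l1)) ::ₘ σ.ms R1) D' μ' r := by
    have := Rk.rot (A := l1) (C := s(u1, b1) :: l2 ++ (M1 ++ s(u1, b1) :: M2)) (by simpa using h1)
    simpa using this
  have hS2 : s(u1, b1) ∉ l2 ++ M1 := by simp [he2, hM1]
  have hS1 : s(u1, b1) ∉ M2 ++ l1 := by simp [he1, hM2]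
  have hc1 : Cnt G R1 ((l2 ++ M1) ++ (M2 ++ l1)) := h5.congr fun a ha b => by
    have e1 := (ne_of_out (b := b) ha hu1' hb1').symm
    simp only [List.count_append, List.count_cons_of_ne e1]
    omega
  have hk := h.card
  obtain ⟨x, hx⟩ := exists_free (insert y (insert z A)) (by
    have := Finset.card_insert_le y (insert z A)
    have := Finset.card_insert_le z A
    omega)
  have hy := h.hy
  have hz := h.hz
  have hyz := h.hyz
  have hcx := Finset.card_insert_le x A
  set f' := Function.update f x sh with hf'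
  have go1 : Gd G R1 l1 (insert y A) f' :=
    h.g1.old hc (by simp) hsub (by simp) (by clear * - hx hy hz hyz hf'; grind)
  have go2 : Gd G R1 l2 (insert z A) f' :=
    h.g2.old hc (List.subset_append_right _ _) hsub (by simp) (by clear * - hx hy hz hyz hf'; grind)
  have gn1 : Gd G R1 M1 {x} f' := Gd.new h6 hsh subset_rfl (by simp) (x := x) (by simp) (by clear * - hx hy hz hyz hf'; grind)
  have gn2 : Gd G R1 M2 {x} f' := Gd.new h6 hsh subset_rfl (by clear * - hx hy hz hyz hf'; grind) (x := x) (by simp) (by clear * - hx hy hz hyz hf'; grind)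
  have gS2 : Gd G R1 (l2 ++ M1) (insert z (insert x A)) f' :=
    (go2.old hc1 (by clear * - hx hy hz hyz hf'; grind) subset_rfl (List.Subset.refl _) (by clear * - hx hy hz hyz hf'; grind)).append
      (gn1.old hc1 (by clear * - hx hy hz hyz hf'; grind) subset_rfl (List.Subset.refl _) (by clear * - hx hy hz hyz hf'; grind))
  have gS1 : Gd G R1 (M2 ++ l1) (insert y (insert x A)) f' :=
    (gn2.old hc1 (by clear * - hx hy hz hyz hf'; grind) subset_rfl (List.Subset.refl _) (by clear * - hx hy hz hyz hf'; grind)).append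
      (go1.old hc1 (by clear * - hx hy hz hyz hf'; grind) subset_rfl (List.Subset.refl _) (by clear * - hx hy hz hyz hf'; grind))
  have hl' : ∀ i ∈ insert x (insert y (insert z A)), Lip G R1 (f' i) :=
    lip_update h.lip hL hsub subset_rfl
  have hlt := card_lt hu0 p subset_rfl
  refine hgame _ f x hx (h.all.guard hc h.lip) fun c r0 hr hrp hcc hcx' => ?_
  have hr0 : r0 ∈ R1 := by simp [hR1, hr, hrp]
  have hpos : ∀ i ∈ insert x (insert y (insert z A)), c i = f' i r0 :=
    pos_update hcc hcx' subset_rfl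
  rcases z2 (μ' s(u1, b1)) with h0 | h0
  · obtain ⟨μ'', r', rfl, h9⟩ := h8.cut1 hS2 hS1 heM heD h0
    exact ih _ hlt _ _ r' z y (insert x A) f'
      ⟨⟨_, μ'', h9, fun a ha b hab => ⟨h4 a ha b hab, ne_of_out ha hu1' hb1'⟩⟩,
        hc1.congr fun a _ b => by simp only [List.count_append, List.count_reverse],
        fun i hi => hl' i (by clear * - hi; grind), gS2.old hc1 (by simp) subset_rfl (by simp) (by clear * - hx hy hz hyz hf'; grind), gS1,
        (by clear * - hx hy hz hyz hf'; grind), (by clear * - hx hy hz hyz hf'; grind), hyz.symm, by omega, b1, hb1'⟩ c r0 hr0 fun i hi => hpos i (by clear * - hi; grind)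
  have h9 := σ.restrict r0 (X := {s(u1, b1)}) h4 (by simpa using heD) (by simpa using heM) h8
  have hc2 := hc1.restrict r0 {s(u1, b1)}
  have hconn := comp_conn (G := G) hr0
  have hr2 := self_mem_comp (G := G) hr0
  have hsub2 := comp_sub (G := G) R1 r0
  set R2 := comp G R1 r0
  set q := tch G R2 {s(u1, b1)} with hq
  have hqe : q s(u1, b1) = true := tch_iff.2 (Or.inr rfl)
  have hqD : ∀ a ∈ R2, ∀ b, G.Adj a b → s(a, b) ∈ {g | q g = true} := fun a ha b hab =>
    tch_iff.2 (Or.inl ⟨a, ha, b, hab, rfl⟩)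
  have hu2 : u1 ∉ R2 := fun h => hu1' (hsub2 h)
  have hb2 : b1 ∉ R2 := fun h => hb1' (hsub2 h)
  rw [List.filter_append, List.filter_cons_of_pos hqe, List.filter_cons_of_pos hqe] at h9
  rw [List.filter_append] at hc2
  have hlt2 : R2.card < R.card := (Finset.card_le_card hsub2).trans_lt hlt
  have h10 := h9.cut0 (fun h => hS2 (List.mem_of_mem_filter h))
    (fun h => hS1 (List.mem_of_mem_filter h)) (σ.not_mem_ms hu2 hb2) hqe
  have hqD' : ∀ a ∈ R2, ∀ b, G.Adj a b → s(a, b) ∈ {g | q g = true} \ {s(u1, b1)} :=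
    fun a ha b hab => ⟨hqD a ha b hab, ne_of_out ha hu2 hb2⟩
  have hfs : ∀ l : List (Sym2 V), l.filter q ⊆ l := fun l => List.filter_subset_self _
  rcases hT2 : (l2 ++ M1).filter q with _ | ⟨f2, D2⟩
  · rw [hT2] at h10 hc2
    rw [List.filter_append] at h10 hc2
    exact ih _ hlt2 _ _ r x y A f' ⟨⟨_, μ', h10.nil, hqD'⟩, hc2,
      fun i hi => (hl' i (by clear * - hi; grind)).mono hsub2, gn2.old hc1 (by clear * - hx hy hz hyz hf'; grind) hsub2 (hfs _) (by clear * - hx hy hz hyz hf'; grind),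
      go1.old hc1 (by clear * - hx hy hz hyz hf'; grind) hsub2 (hfs _) (by clear * - hx hy hz hyz hf'; grind), (by clear * - hx hy hz hyz hf'; grind), hy, (by clear * - hx hy hz hyz hf'; grind), hk, b1, hb2⟩
      c r0 hr2 fun i hi => hpos i (by clear * - hi; grind)
  rcases List.eq_nil_or_concat' ((M2 ++ l1).filter q) with hT1 | ⟨A1, f1, hT1⟩
  · rw [hT1] at h10 hc2
    rw [Multiset.cons_swap, List.filter_append] at h10
    rw [List.append_nil, List.filter_append] at hc2
    exact ih _ hlt2 _ _ r z x A f' ⟨⟨_, μ', h10.nil, hqD'⟩, hc2,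
      fun i hi => (hl' i (by clear * - hi; grind)).mono hsub2, go2.old hc1 (by clear * - hx hy hz hyz hf'; grind) hsub2 (hfs _) (by clear * - hx hy hz hyz hf'; grind),
      gn1.old hc1 (by clear * - hx hy hz hyz hf'; grind) hsub2 (hfs _) (by clear * - hx hy hz hyz hf'; grind), hz, (by clear * - hx hy hz hyz hf'; grind), (by clear * - hx hy hz hyz hf'; grind), hk, b1, hb2⟩
      c r0 hr2 fun i hi => hpos i (by clear * - hi; grind)
  have g1 := gS1.old hc1 (by simp) hsub2 (hfs _) (S' := insert y (insert x A)) (f' := f')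
    (by clear * - hx hy hz hyz hf'; grind)
  have g2 := gS2.old hc1 (by simp) hsub2 (hfs _) (S' := insert z (insert x A)) (f' := f')
    (by clear * - hx hy hz hyz hf'; grind)
  have hm2 : ∀ g ∈ (l2 ++ M1).filter q ++ (M2 ++ l1).filter q,
      ∃ a ∈ R2, ∃ b, G.Adj a b ∧ g = s(a, b) := by
    intro g hg
    rw [← List.filter_append, List.mem_filter] at hg
    refine (tch_iff.1 hg.2).resolve_right fun h => ?_
    rw [Set.mem_singleton_iff.1 h] at hg
    exact (List.mem_append.1 hg.1).elim hS2 hS1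
  rw [hT1, hT2] at h9 hc2 hm2
  rw [hT1] at g1
  rw [hT2] at g2
  exact core_two hG ih hlt2.le hconn hu2 hb2 h9 hqD hqe h0 hc2 hm2
    (fun i hi => (hl' i (by clear * - hi; grind)).mono hsub2) g1 g2 (by clear * - hx hy hz hyz hf'; grind) (by clear * - hx hy hz hyz hf'; grind) hyz (by omega)
    c r0 hr2 fun i hi => hpos i (by clear * - hi; grind)

theorem main_ih (hG : G.Connected) (n : ℕ) : IH σ k n := by
  induction n with
  | zero => exact fun R h => absurd h (Nat.not_lt_zero _)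
  | succ n ih =>
    intro R hn l1 l2 r y z A f h c r0 hr0 hc
    obtain ⟨D, μ, h1, hD⟩ := h.rk
    have h2 := σ.restrict r0 (X := ∅) hD (by simp) (by simp) h1
    have h3 := h.cnt.restrict r0 ∅
    have hsub := comp_sub (G := G) R r0
    have hm : ∀ g ∈ (l1 ++ l2).filter (tch G (comp G R r0) ∅),
        ∃ a ∈ comp G R r0, ∃ b, b ∉ comp G R r0 ∧ G.Adj a b ∧ g = s(a, b) := by
      intro g hg
      obtain ⟨a, ha, b, hab, rfl⟩ := (tch_iff.1 (List.mem_filter.1 hg).2).resolve_right id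
      exact ⟨a, ha, b, h3.out ha hab hg, hab, rfl⟩
    rw [List.filter_append] at h2 h3 hm
    have h4 : Pre σ (comp G R r0) _ _ r y z A f :=
      ⟨⟨_, μ, h2, fun a ha b hab => tch_iff.2 (Or.inl ⟨a, ha, b, hab, rfl⟩)⟩, h3,
        fun i hi => (h.lip i hi).mono hsub,
        h.g1.old h.cnt (by simp) hsub (List.filter_subset_self _) (by simp),
        h.g2.old h.cnt (by simp) hsub (List.filter_subset_self _) (by simp), h.hy, h.hz, h.hyz,
        h.card, h.ne.imp fun v hv h => hv (hsub h)⟩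
    have ih' : IH σ k (comp G R r0).card := fun R' hR' =>
      ih R' (by have := Finset.card_le_card hsub; omega)
    have hconn := comp_conn (G := G) hr0
    generalize l1.filter _ = m1, l2.filter _ = m2 at h4 hm
    have key : Good G (comp G R r0) (insert y (insert z A)) f := by
      rcases m1 with _ | ⟨e0, m1⟩
      · exact core_ext hG ih' h4 hconn hm
      rcases m2 with _ | ⟨e1, m2⟩
      · rw [Finset.insert_comm]
        exact core_ext hG ih' h4.symm hconn (by simpa using hm)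
      · exact core_main hG ih' h4 hconn hm
    exact key c r0 (self_mem_comp hr0) hc

theorem cops (hG : G.Connected) (σ : Scheme G) (g : ℕ)
    (hg : Nat.card G.edgeSet + 2 ≤ Nat.card V + σ.faces + g) : CopsWin G (g + 3) := by
  obtain ⟨v⟩ := hG.nonempty
  refine copsWin_of (fun _ => v) fun r => win_step (fun _ => near_refl _) ?_
  by_cases hr : r = v
  · exact Or.inl ⟨0, hr.symm⟩
  have h1 := σ.rk0 hG g hg
  rw [σ.ms_erase (Finset.mem_univ v)] at h1
  refine main_ih (σ := σ) hG _ (Finset.univ.erase v) (Nat.lt_succ_self _) (σ.ed v) [] g 0 1 ∅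
    (fun _ _ => v) ⟨⟨_, _, by simpa using h1, fun a _ b hab => hab⟩, fun a ha b hab => ?_,
      fun _ _ _ _ _ _ _ => near_refl _, fun a _ b hb _ _ => ⟨0, by simp, Or.inl ?_⟩,
      fun _ _ _ _ _ h => by simp at h, by simp, by simp, by simp, by simp, v, by simp⟩ _ r
    (by simp [hr]) fun _ _ => rfl
  · have ha : v ≠ a := (Finset.mem_erase.1 ha).1.symm
    rw [List.append_nil, σ.count_ed v hab]
    by_cases hb : b = v
    · simp [ha, hb]
    · simp [ha, hb, Ne.symm hb]
  · simpa [eq_comm] using hb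

end Pool.Agent.MP_de21d3_co.H91
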