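import Pool.Agent.MP_de21d3_co.H91.Face
import Pool.Agent.MP_de21d3_co.H91.Game

/-!
Contracting a path into the hole, and passing to a component.
-/

set_option linter.unusedSectionVars false

namespace Pool.Agent.MP_de21d3_co.H91

variable {V : Type} [Fintype V] [DecidableEq V] {G : SimpleGraph V} (σ : Scheme G) {r : ℕ}

theorem Scheme.ms_erase {R : Finset V} {u : V} (hu : u ∈ R) :
    σ.ms R = σ.ed u ::ₘ σ.ms (R.erase u) := by
  unfold Scheme.ms
  rw [← Multiset.map_cons, Finset.erase_val, Multiset.cons_erase hu]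

theorem Scheme.not_mem_ed {w a b : V} (h1 : w ≠ a) (h2 : w ≠ b) : s(a, b) ∉ σ.ed w := by
  intro hm
  obtain ⟨c, -, hc⟩ := σ.mem_ed.1 hm
  rcases Sym2.eq_iff.1 hc with h | h
  · exact h1 h.1.symm
  · exact h2 h.2.symm

theorem Scheme.not_mem_ms {R : Finset V} {a b : V} (h1 : a ∉ R) (h2 : b ∉ R) :
    ∀ l ∈ σ.ms R, s(a, b) ∉ l := by
  intro l hl
  obtain ⟨w, hw, rfl⟩ := Multiset.mem_map.1 hl
  exact σ.not_mem_ed (fun h => h1 (h ▸ hw)) fun h => h2 (h ▸ hw)

theorem Scheme.step1 {R : Finset V} {u : V} (hu : u ∈ R) {A : List (Sym2 V)} {e : Sym2 V}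
    {D : Set (Sym2 V)} {μ : Ch (Sym2 V)} (he : e ∈ σ.ed u) (hA : e ∉ A)
    (hR : ∀ w ∈ R, w ≠ u → e ∉ σ.ed w) (hD : e ∈ D) (h : Rk ((A ++ [e]) ::ₘ σ.ms R) D μ r) :
    ∃ (C : List (Sym2 V)) (μ' : Ch (Sym2 V)), (e :: C).Perm (σ.ed u) ∧
      (∀ g, g ∉ σ.ed u → μ' g = μ g) ∧ Rk ((A ++ C) ::ₘ σ.ms (R.erase u)) (D \ {e}) μ' r := by
  obtain ⟨C1, C2, hC⟩ := List.append_of_mem he
  have hn := σ.nodup_ed u
  have hp : (e :: (C2 ++ C1)).Perm (σ.ed u) := by
    rw [hC]
    exact List.perm_append_comm (l₁ := e :: C2)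
  rw [σ.ms_erase hu, Multiset.cons_swap, hC] at h
  have h1 := h.rot
  rw [Multiset.cons_swap] at h1
  obtain ⟨C, μ', h2, h3, h4⟩ := Rk.contract (C := C2 ++ C1) h1 hA
    (List.nodup_cons.1 (hp.nodup_iff.2 hn)).1 (fun l hl => by
      obtain ⟨w, hw, rfl⟩ := Multiset.mem_map.1 hl
      have := Finset.mem_erase.1 (show w ∈ R.erase u from hw)
      exact hR w this.2 this.1) hD
  exact ⟨C, μ', (h2.cons e).trans hp,
    fun g hg => h3 g fun h => hg (hp.subset (List.mem_cons_of_mem _ h)), h4⟩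

theorem Scheme.pc {R0 : Finset V} {u v : V} (p : (GR G R0).Walk u v) (hp : p.IsPath)
    (R : Finset V) (A : List (Sym2 V)) (e : Sym2 V) (D : Set (Sym2 V)) (μ : Ch (Sym2 V))
    (hs : ∀ a ∈ p.support, a ∈ R) (he : e ∈ σ.ed u) (hA : e ∉ A)
    (hR : ∀ w ∈ R, w ≠ u → e ∉ σ.ed w) (hin : ∀ a ∈ R, ∀ b ∈ R, G.Adj a b → s(a, b) ∉ A)
    (hD : ∀ a ∈ R, ∀ b, G.Adj a b → s(a, b) ∈ D) (h : Rk ((A ++ [e]) ::ₘ σ.ms R) D μ r) :
    ∃ (N : List (Sym2 V)) (μ' : Ch (Sym2 V)) (D' : Set (Sym2 V)),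
      Rk ((A ++ N) ::ₘ σ.ms (R \ p.support.toFinset)) D' μ' r ∧
      (∀ a b, a ∉ p.support → b ∉ p.support → μ' s(a, b) = μ s(a, b)) ∧
      (∀ a b, s(a, b) ∈ D → s(a, b) ≠ e → a ∉ p.support → s(a, b) ∈ D') ∧
      (∀ a b, a ∉ p.support → b ∉ p.support → s(a, b) ∉ N) ∧
      ∀ a ∈ p.support, ∀ b, b ∉ p.support → G.Adj a b → s(a, b) ≠ e → N.count s(a, b) = 1 := by
  induction p generalizing R A e D μ with
  | @nil u =>
    have hu : u ∈ R := hs u (by simp)
    have heD : e ∈ D := by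
      obtain ⟨w, hw, rfl⟩ := σ.mem_ed.1 he
      exact hD u hu w hw
    obtain ⟨C, μ', h1, h2, h3⟩ := σ.step1 hu he hA hR heD h
    refine ⟨C, μ', D \ {e}, by simpa [Finset.sdiff_singleton_eq_erase] using h3,
      fun a b ha hb => h2 _ (σ.not_mem_ed ?_ ?_), fun a b h1 h2 _ => ⟨h1, h2⟩,
      fun a b ha hb hm => σ.not_mem_ed ?_ ?_ (h1.subset (List.mem_cons_of_mem _ hm)),
      fun a ha b _ hab hne => ?_⟩
    · exact fun h => ha (by simp [h])
    · exact fun h => hb (by simp [h])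
    · exact fun h => ha (by simp [h])
    · exact fun h => hb (by simp [h])
    · obtain rfl : a = u := by simpa using ha
      have := h1.count_eq s(a, b)
      rwa [σ.count_ed a hab, if_pos (Or.inl rfl), List.count_cons_of_ne hne.symm] at this
  | @cons u u' v huu q ih =>
    have hu : u ∈ R := hs u (by simp)
    have hu' : u' ∈ R := hs u' (by simp)
    have hq := (SimpleGraph.Walk.cons_isPath_iff _ _).1 hp
    have hadj : G.Adj u u' := huu.1
    have heD : e ∈ D := by
      obtain ⟨w, hw, rfl⟩ := σ.mem_ed.1 he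
      exact hD u hu w hw
    obtain ⟨C, μ', h1, h2, h3⟩ := σ.step1 hu he hA hR heD h
    have hm' : s(u, u') ∈ σ.ed u' := σ.mem_ed.2 ⟨u, hadj.symm, Sym2.eq_swap⟩
    have hne : s(u, u') ≠ e := fun h => hR u' hu' hadj.ne.symm (h ▸ hm')
    have hmC : s(u, u') ∈ C :=
      (List.mem_cons.1 (h1.symm.subset (σ.mem_ed.2 ⟨u', hadj, rfl⟩))).resolve_left hne
    obtain ⟨C1, C2, rfl⟩ := List.append_of_mem hmC
    have hnd := (List.nodup_cons.1 (h1.nodup_iff.2 (σ.nodup_ed u))).2
    have hn1 : s(u, u') ∉ C1 := fun h => (List.nodup_append.1 hnd).2.2 _ h _ (by simp) rfl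
    have hn2 : s(u, u') ∉ C2 := (List.nodup_cons.1 (List.nodup_append.1 hnd).2.1).1
    have hsub : ∀ g, g ∈ C1 ∨ g ∈ C2 → g ∈ σ.ed u := fun g hg => h1.subset (by
      simp only [List.mem_cons, List.mem_append]
      tauto)
    have h4 : Rk ((C2 ++ A ++ C1 ++ [s(u, u')]) ::ₘ σ.ms (R.erase u)) (D \ {e}) μ' r := by
      have := Rk.rot (A := A ++ C1 ++ [s(u, u')]) (C := C2) (by simpa using h3)
      simpa using this
    obtain ⟨N, μ'', D', h5, h6, h7, h8, h9⟩ := ih hq.1 (R.erase u) (C2 ++ A ++ C1) s(u, u')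
      (D \ {e}) μ'
      (fun a ha => Finset.mem_erase.2 ⟨fun h => hq.2 (h ▸ ha), hs a (by simp [ha])⟩) hm'
      (by
        simp only [List.mem_append, not_or]
        exact ⟨⟨hn2, hin u hu u' hu' hadj⟩, hn1⟩)
      (fun w hw hw' => σ.not_mem_ed (Finset.mem_erase.1 hw).1 hw')
      (fun a ha b hb hab => by
        have ha := Finset.mem_erase.1 ha
        have hb := Finset.mem_erase.1 hb
        have := σ.not_mem_ed ha.1.symm hb.1.symm
        simp only [List.mem_append, not_or]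
        exact ⟨⟨fun h => this (hsub _ (Or.inr h)), hin a ha.2 b hb.2 hab⟩,
          fun h => this (hsub _ (Or.inl h))⟩)
      (fun a ha b hab => by
        have ha := Finset.mem_erase.1 ha
        exact ⟨hD a ha.2 b hab, fun h => hR a ha.2 ha.1 (h ▸ σ.mem_ed.2 ⟨b, hab, rfl⟩)⟩) h4
    have hsup : ∀ a, a ∉ (SimpleGraph.Walk.cons huu q).support ↔ a ≠ u ∧ a ∉ q.support := by
      simp
    refine ⟨C1 ++ N ++ C2, μ'', D', ?_, fun a b ha hb => ?_, fun a b h1 h2 ha => ?_,
      fun a b ha hb => ?_, fun a ha b hb hab hne' => ?_⟩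
    · have e1 : R \ (SimpleGraph.Walk.cons huu q).support.toFinset =
          R.erase u \ q.support.toFinset := by
        ext a
        simp only [SimpleGraph.Walk.support_cons, List.toFinset_cons, Finset.mem_sdiff,
          Finset.mem_insert, Finset.mem_erase]
        tauto
      rw [e1]
      have := Rk.rot (A := C2) (C := A ++ C1 ++ N) (by simpa using h5)
      simpa using this
    · rw [hsup] at ha hb
      rw [h6 a b ha.2 hb.2, h2 _ (σ.not_mem_ed ha.1.symm hb.1.symm)]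
    · rw [hsup] at ha
      refine h7 a b ⟨h1, h2⟩ (fun h => ?_) ha.2
      rcases Sym2.eq_iff.1 h with h | h
      · exact ha.1 h.1
      · exact ha.2 (h.1 ▸ q.start_mem_support)
    · rw [hsup] at ha hb
      have := σ.not_mem_ed ha.1.symm hb.1.symm
      simp only [List.mem_append, not_or]
      exact ⟨⟨fun h => this (hsub _ (Or.inl h)), h8 a b ha.2 hb.2⟩,
        fun h => this (hsub _ (Or.inr h))⟩
    · rw [hsup] at hb
      have hc := h1.count_eq s(a, b)
      rw [σ.count_ed u hab, List.count_cons_of_ne hne'.symm, List.count_append] at hc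
      rw [List.count_append, List.count_append]
      by_cases hau : a = u
      · subst hau
        have h10 : s(a, u') ≠ s(a, b) := fun h =>
          hb.2 (Sym2.congr_right.1 h ▸ q.start_mem_support)
        rw [if_pos (Or.inl rfl), List.count_cons_of_ne h10] at hc
        rw [List.count_eq_zero_of_not_mem (h8 a b hq.2 hb.2)]
        omega
      · have ha' : a ∈ q.support := by simpa [hau] using ha
        have h10 : s(a, b) ≠ s(u, u') := fun h => by
          rcases Sym2.eq_iff.1 h with h | h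
          · exact hau h.1
          · exact hb.1 h.2
        rw [if_neg (by rintro (h | h); exacts [hau h.symm, hb.1 h.symm]),
          List.count_cons_of_ne h10.symm] at hc
        rw [h9 a ha' b hb.2 hab h10]
        omega

/-- The list contains each edge leaving `R` once, and no edge inside `R`. -/
def Cnt (G : SimpleGraph V) (R : Finset V) (l : List (Sym2 V)) : Prop :=
  ∀ a ∈ R, ∀ b, G.Adj a b → l.count s(a, b) = if b ∈ R then 0 else 1

theorem Scheme.remove {R : Finset V} {u v b0 : V} (p : (GR G R).Walk u v) (hp : p.IsPath)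
    (hu : u ∈ R) (hb0 : b0 ∉ R) (hub : G.Adj u b0) {A : List (Sym2 V)} {D : Set (Sym2 V)}
    {μ : Ch (Sym2 V)} (hc : Cnt G R (A ++ [s(u, b0)]))
    (hD : ∀ a ∈ R, ∀ b, G.Adj a b → s(a, b) ∈ D)
    (h : Rk ((A ++ [s(u, b0)]) ::ₘ σ.ms R) D μ r) :
    ∃ (N : List (Sym2 V)) (μ' : Ch (Sym2 V)) (D' : Set (Sym2 V)),
      Rk ((A ++ N) ::ₘ σ.ms (R \ p.support.toFinset)) D' μ' r ∧
      (∀ a b, a ∉ R → b ∉ R → μ' s(a, b) = μ s(a, b) ∧ s(a, b) ∉ N) ∧
      (∀ a b, s(a, b) ∈ D → s(a, b) ≠ s(u, b0) → a ∉ p.support → s(a, b) ∈ D') ∧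
      (∀ a ∈ R \ p.support.toFinset, ∀ b, G.Adj a b → s(a, b) ∈ D') ∧
      Cnt G (R \ p.support.toFinset) (A ++ N) ∧
      (∀ a ∈ R \ p.support.toFinset, ∀ b, s(a, b) ∈ N → b ∈ p.support) ∧
      ∀ b, b ∉ R → G.Adj v b → s(v, b) ≠ s(u, b0) → N.count s(v, b) = 1 := by
  have hs := supp_GR hu p
  have hA : s(u, b0) ∉ A := by
    have := hc u hu b0 hub
    rw [if_neg hb0, List.count_append, List.count_singleton_self] at this
    exact List.count_eq_zero.1 (by omega)
  have hne : ∀ a ∈ R \ p.support.toFinset, ∀ b, s(a, b) ≠ s(u, b0) := by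
    intro a ha b h
    have ha := Finset.mem_sdiff.1 ha
    rcases Sym2.eq_iff.1 h with h | h
    · exact ha.2 (List.mem_toFinset.2 (h.1 ▸ p.start_mem_support))
    · exact hb0 (h.1 ▸ ha.1)
  obtain ⟨N, μ', D', h1, h2, h3, h4, h5⟩ := σ.pc p hp R A _ D μ hs (σ.mem_ed.2 ⟨b0, hub, rfl⟩) hA
    (fun w hw hw' => σ.not_mem_ed hw' fun h => hb0 (h ▸ hw))
    (fun a ha b hb hab => by
      have := hc a ha b hab
      rw [if_pos hb, List.count_append] at this
      exact List.count_eq_zero.1 (by omega)) hD h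
  refine ⟨N, μ', D', h1, fun a b ha hb => ⟨h2 a b (fun h => ha (hs a h)) fun h => hb (hs b h),
    h4 a b (fun h => ha (hs a h)) fun h => hb (hs b h)⟩, h3, fun a ha b hab => ?_,
    fun a ha b hab => ?_, fun a ha b hb => ?_,
    fun b hb hvb => h5 v p.end_mem_support b (fun h => hb (hs b h)) hvb⟩
  · have ha' := Finset.mem_sdiff.1 ha
    exact h3 a b (hD a ha'.1 b hab) (hne a ha b) fun h => ha'.2 (List.mem_toFinset.2 h)
  · have ha' := Finset.mem_sdiff.1 ha
    have ha2 : a ∉ p.support := fun h => ha'.2 (List.mem_toFinset.2 h)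
    have h6 := hc a ha'.1 b hab
    rw [List.count_append, List.count_singleton, if_neg (by simpa using (hne a ha b).symm),
      add_zero] at h6
    rw [List.count_append, h6]
    by_cases hb : b ∈ p.support
    · have h7 := h5 b hb a ha2 hab.symm (by rw [Sym2.eq_swap]; exact hne a ha b)
      rw [Sym2.eq_swap] at h7
      simp [h7, hb, hs b hb]
    · simp [List.count_eq_zero_of_not_mem (h4 a b ha2 hb), hb]
  · by_contra h
    exact h4 a b (fun h => (Finset.mem_sdiff.1 ha).2 (List.mem_toFinset.2 h)) h hb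

open Classical in
/-- The component of `r` in `R`. -/
noncomputable def comp (G : SimpleGraph V) (R : Finset V) (r : V) : Finset V :=
  R.filter fun a => (GR G R).Reachable r a

theorem comp_sub (R : Finset V) (r : V) : comp G R r ⊆ R := by
  classical exact Finset.filter_subset _ _

theorem mem_comp {R : Finset V} {r a : V} : a ∈ comp G R r ↔ a ∈ R ∧ (GR G R).Reachable r a := by
  simp [comp]

theorem self_mem_comp {R : Finset V} {r : V} (h : r ∈ R) : r ∈ comp G R r :=
  mem_comp.2 ⟨h, SimpleGraph.Reachable.refl _⟩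

theorem comp_closed {R : Finset V} {r a b : V} (ha : a ∈ comp G R r) (hb : b ∈ R)
    (hab : G.Adj a b) : b ∈ comp G R r := by
  have := mem_comp.1 ha
  exact mem_comp.2 ⟨hb, this.2.trans (SimpleGraph.Adj.reachable ⟨hab, this.1, hb⟩)⟩

theorem comp_conn {R : Finset V} {r : V} (hr : r ∈ R) :
    ∀ a ∈ comp G R r, ∀ b ∈ comp G R r, (GR G (comp G R r)).Reachable a b := by
  have key : ∀ a b (p : (GR G R).Walk a b), a ∈ comp G R r →
      (GR G (comp G R r)).Reachable a b := by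
    intro a b p
    induction p with
    | nil => exact fun _ => SimpleGraph.Reachable.refl _
    | cons h p ih =>
      intro ha
      have hb := comp_closed ha h.2.2 h.1
      exact (SimpleGraph.Adj.reachable (G := GR G (comp G R r)) ⟨h.1, ha, hb⟩).trans (ih hb)
  intro a ha b hb
  obtain ⟨p⟩ := (mem_comp.1 ha).2
  obtain ⟨q⟩ := (mem_comp.1 hb).2
  exact (key r a p (self_mem_comp hr)).symm.trans (key r b q (self_mem_comp hr))

open Classical in
/-- The edges that touch `R`, and one more. -/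
noncomputable def tch (G : SimpleGraph V) (R : Finset V) (X : Set (Sym2 V)) (g : Sym2 V) : Bool :=
  decide ((∃ a ∈ R, ∃ b, G.Adj a b ∧ g = s(a, b)) ∨ g ∈ X)

theorem tch_iff {R : Finset V} {X : Set (Sym2 V)} {g : Sym2 V} :
    tch G R X g = true ↔ (∃ a ∈ R, ∃ b, G.Adj a b ∧ g = s(a, b)) ∨ g ∈ X := by
  simp [tch]

theorem Scheme.restrict {R : Finset V} (r0 : V) {l : List (Sym2 V)} {D X : Set (Sym2 V)}
    {μ : Ch (Sym2 V)} (hD : ∀ a ∈ R, ∀ b, G.Adj a b → s(a, b) ∈ D) (hX : X ⊆ D)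
    (hX' : ∀ l ∈ σ.ms R, ∀ g ∈ X, g ∉ l) (h : Rk (l ::ₘ σ.ms R) D μ r) :
    Rk (l.filter (tch G (comp G R r0) X) ::ₘ σ.ms (comp G R r0))
      {g | tch G (comp G R r0) X g = true} μ r := by
  have e1 : l ::ₘ σ.ms R = (l ::ₘ σ.ms (comp G R r0)) + σ.ms (R \ comp G R r0) := by
    unfold Scheme.ms
    rw [Multiset.cons_add, ← Multiset.map_add, Finset.sdiff_val, add_comm,
      Multiset.sub_add_cancel (Finset.val_le_iff.2 (comp_sub R r0))]
  rw [e1] at h
  refine (h.drop (D' := {g | tch G (comp G R r0) X g = true}) (fun g hg => ?_)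
    fun l hl g hg hg' => ?_).filter _ fun a ha h => by simp [ha] at h
  · rcases tch_iff.1 hg with ⟨a, ha, b, hab, rfl⟩ | hg
    · exact hD a (comp_sub R r0 ha) b hab
    · exact hX hg
  · obtain ⟨w, hw, rfl⟩ := Multiset.mem_map.1 hl
    have hw := Finset.mem_sdiff.1 (show w ∈ R \ comp G R r0 from hw)
    rcases tch_iff.1 hg' with ⟨a, ha, b, hab, rfl⟩ | hg'
    · refine σ.not_mem_ed (fun h => hw.2 ?_) (fun h => hw.2 ?_) hg
      · rwa [h]
      · exact comp_closed ha hw.1 (h ▸ hab)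
    · exact hX' _ (Multiset.mem_map.2 ⟨w, hw.1, rfl⟩) g hg' hg

theorem Cnt.restrict {R : Finset V} (r0 : V) {l : List (Sym2 V)} (X : Set (Sym2 V))
    (h : Cnt G R l) : Cnt G (comp G R r0) (l.filter (tch G (comp G R r0) X)) := by
  intro a ha b hab
  rw [List.count_filter (tch_iff.2 (Or.inl ⟨a, ha, b, hab, rfl⟩)), h a (comp_sub R r0 ha) b hab]
  by_cases hb : b ∈ R
  · rw [if_pos hb, if_pos (comp_closed ha hb hab)]
  · rw [if_neg hb, if_neg fun h => hb (comp_sub R r0 h)]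

theorem Cnt.out {R : Finset V} {l : List (Sym2 V)} (h : Cnt G R l) {a b : V} (ha : a ∈ R)
    (hab : G.Adj a b) (hm : s(a, b) ∈ l) : b ∉ R := by
  intro hb
  have := h a ha b hab
  rw [if_pos hb] at this
  exact List.count_eq_zero.1 this hm

theorem Rk.nil {ε : Type} [Fintype ε] [DecidableEq ε] {M : Multiset (List ε)} {D : Set ε}
    {μ : Ch ε} (h : Rk ([] ::ₘ M) D μ r) : Rk M D μ r := by
  rw [← Multiset.singleton_add, add_comm] at h
  exact h.drop subset_rfl (by simp)

end Pool.Agent.MP_de21d3_co.H91
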